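import Mathlib

/-!
# Logarithms in half planes, Borel-Carathéodory and the three lines theorem
-/

set_option autoImplicit false

open Filter Topology Set Complex

namespace Pool.Agent.H572.OB

/-- a continuous branch of the logarithm of a holomorphic function is holomorphic -/
lemma log_diff {U : Set ℂ} (hU : IsOpen U) {g ℓ : ℂ → ℂ} (hg : DifferentiableOn ℂ g U)
    (hℓ : ContinuousOn ℓ U) (h : ∀ z ∈ U, Complex.exp (ℓ z) = g z) : DifferentiableOn ℂ ℓ U := by
  intro z₀ hz₀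
  have hUz : U ∈ 𝓝 z₀ := hU.mem_nhds hz₀
  have hc : ContinuousAt ℓ z₀ := hℓ.continuousAt hUz
  have hgd : DifferentiableAt ℂ g z₀ := (hg z₀ hz₀).differentiableAt hUz
  have hg0 : g z₀ ≠ 0 := by rw [← h z₀ hz₀]; exact Complex.exp_ne_zero _
  have hev : ℓ =ᶠ[𝓝 z₀] fun z => ℓ z₀ + Complex.log (g z / g z₀) := by
    have h1 : Tendsto (fun z => ℓ z - ℓ z₀) (𝓝 z₀) (𝓝 0) := by
      have := hc.tendsto.sub_const (ℓ z₀)
      rwa [sub_self] at this
    have h2 : ∀ᶠ z in 𝓝 z₀, ‖ℓ z - ℓ z₀‖ < 1 := by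
      have := h1.norm
      rw [norm_zero] at this
      exact this.eventually (gt_mem_nhds one_pos)
    filter_upwards [h2, hUz] with z hz hzU
    have h3 : |(ℓ z - ℓ z₀).im| < 1 := (Complex.abs_im_le_norm _).trans_lt hz
    have h4 := abs_lt.1 h3
    have h5 : g z / g z₀ = Complex.exp (ℓ z - ℓ z₀) := by
      rw [Complex.exp_sub, h z hzU, h z₀ hz₀]
    rw [h5, Complex.log_exp (by linarith [Real.pi_gt_three]) (by linarith [Real.pi_gt_three])]
    ring
  have hslit : g z₀ / g z₀ ∈ Complex.slitPlane := by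
    rw [div_self hg0]; exact Complex.one_mem_slitPlane
  exact (((hgd.div_const _).clog hslit).const_add _ |>.congr_of_eventuallyEq hev).differentiableWithinAt

/-- the half plane -/
def Hp (θ : ℝ) : Set ℂ := {z | θ < z.re}

lemma Hp_open (θ : ℝ) : IsOpen (Hp θ) := isOpen_lt continuous_const Complex.continuous_re

theorem exists_log {g : ℂ → ℂ} {θ : ℝ} (hg : Differentiable ℂ g) (hne : ∀ z : ℂ, θ < z.re → g z ≠ 0)
    (hθ : θ < 3) (h3 : ∀ z : ℂ, 3 ≤ z.re → ‖g z - 1‖ ≤ 1 / 2) :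
    ∃ ℓ : ℂ → ℂ, DifferentiableOn ℂ ℓ (Hp θ) ∧ (∀ z, θ < z.re → Complex.exp (ℓ z) = g z) ∧
      ∀ z : ℂ, 3 ≤ z.re → ‖ℓ z‖ ≤ 1 := by
  have hconv : Convex ℝ (Hp θ) := convex_halfSpace_re_gt θ
  have hne' : (Hp θ).Nonempty := ⟨((θ + 1 : ℝ) : ℂ), by simp [Hp]⟩
  have hsc : IsSimplyConnected (Hp θ) := by
    have : ContractibleSpace (Hp θ) := hconv.contractibleSpace hne'
    exact (inferInstance : SimplyConnectedSpace (Hp θ))
  obtain ⟨ℓ, hℓc, hℓ⟩ := Complex.exists_continuousOn_eqOn_exp_comp hsc (Hp_open θ) hg.continuous.continuousOn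
    (by rintro ⟨z, hz, h0⟩; exact hne z hz h0)
  have hℓe : ∀ z, θ < z.re → Complex.exp (ℓ z) = g z := fun z hz => hℓ hz
  have hd := log_diff (Hp_open θ) hg.differentiableOn hℓc hℓe
  -- the principal branch for `3 ≤ Re z`
  have hsl : ∀ z : ℂ, 3 ≤ z.re → g z ∈ Complex.slitPlane := by
    intro z hz
    left
    have h1 := h3 z hz
    have h2 := (Complex.abs_re_le_norm (g z - 1)).trans h1
    rw [Complex.sub_re, Complex.one_re] at h2
    have := (abs_le.1 h2).1
    linarith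
  have hcont : ContinuousOn (fun z => ((ℓ z - Complex.log (g z)) / (2 * Real.pi * Complex.I))) {z | 3 ≤ z.re} := by
    refine ContinuousOn.div_const (ContinuousOn.sub (hℓc.mono fun z hz => lt_of_lt_of_le hθ hz) ?_) _
    exact hg.continuous.continuousOn.clog hsl
  have hint : ∀ z : ℂ, 3 ≤ z.re → ∃ n : ℤ, (ℓ z - Complex.log (g z)) / (2 * Real.pi * Complex.I) = n := by
    intro z hz
    have h1 : Complex.exp (ℓ z) = Complex.exp (Complex.log (g z)) := by
      rw [hℓe z (by linarith), Complex.exp_log (hne z (by linarith))]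
    obtain ⟨n, hn⟩ := Complex.exp_eq_exp_iff_exists_int.1 h1
    refine ⟨n, ?_⟩
    rw [hn]
    have : (2 * Real.pi * Complex.I : ℂ) ≠ 0 := Complex.two_pi_I_ne_zero
    field_simp
    ring
  obtain ⟨n, hn⟩ := hint 3 (by simp)
  have hconst : ∀ z : ℂ, 3 ≤ z.re → (ℓ z - Complex.log (g z)) / (2 * Real.pi * Complex.I) = n := by
    intro z hz
    have hpre : IsPreconnected {z : ℂ | 3 ≤ z.re} := (convex_halfSpace_re_ge 3).isPreconnected
    have hcr : ContinuousOn (fun z => ((ℓ z - Complex.log (g z)) / (2 * Real.pi * Complex.I)).re)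
        {z : ℂ | 3 ≤ z.re} := Complex.continuous_re.comp_continuousOn hcont
    have hdis : IsDiscrete (((↑) : ℤ → ℝ) '' univ) :=
      (IsDiscrete.univ (X := ℤ)).image Int.isClosedEmbedding_coe_real.isInducing
    have hmaps : MapsTo (fun z => ((ℓ z - Complex.log (g z)) / (2 * Real.pi * Complex.I)).re)
        {z : ℂ | 3 ≤ z.re} (((↑) : ℤ → ℝ) '' univ) := by
      intro w hw
      obtain ⟨k, hk⟩ := hint w hw
      exact ⟨k, mem_univ _, by simp only; rw [hk, Complex.intCast_re]⟩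
    have h3' : (3 : ℂ) ∈ {z : ℂ | 3 ≤ z.re} := by
      show (3 : ℝ) ≤ (3 : ℂ).re
      simp
    have h1 : ((ℓ z - Complex.log (g z)) / (2 * Real.pi * Complex.I)).re =
        ((ℓ 3 - Complex.log (g 3)) / (2 * Real.pi * Complex.I)).re :=
      hpre.constant_of_mapsTo hdis hcr hmaps (x := z) (y := 3) hz h3'
    obtain ⟨k, hk⟩ := hint z hz
    rw [hk, hn, Complex.intCast_re, Complex.intCast_re] at h1
    have h2 : k = n := by exact_mod_cast h1
    rw [hk, h2]
  refine ⟨fun z => ℓ z - n * (2 * Real.pi * Complex.I), hd.sub_const _, ?_, ?_⟩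
  · intro z hz
    rw [Complex.exp_sub, hℓe z hz, Complex.exp_int_mul_two_pi_mul_I, div_one]
  · intro z hz
    have h1 := hconst z hz
    rw [div_eq_iff Complex.two_pi_I_ne_zero] at h1
    have h2 : ℓ z - n * (2 * Real.pi * Complex.I) = Complex.log (1 + (g z - 1)) := by
      rw [← h1]; ring_nf
    show ‖ℓ z - n * (2 * Real.pi * Complex.I)‖ ≤ 1
    rw [h2]
    refine (Complex.norm_log_one_add_half_le_self (h3 z hz)).trans ?_
    linarith [h3 z hz]

/-- Borel-Carathéodory with centre `c` -/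
lemma bc {ℓ : ℂ → ℂ} {θ M R r : ℝ} (hd : DifferentiableOn ℂ ℓ (Hp θ)) {c : ℂ} (hc : ‖ℓ c‖ ≤ 1)
    (hM : 0 < M) (hr : 0 ≤ r) (hrR : r < R) (hsub : ∀ w : ℂ, ‖w - c‖ < R → θ < w.re)
    (hre : ∀ w : ℂ, ‖w - c‖ < R → (ℓ w).re ≤ M) {z : ℂ} (hz : ‖z - c‖ ≤ r) :
    ‖ℓ z‖ ≤ (2 * M * r + (R + r)) / (R - r) := by
  have hR : 0 < R := hr.trans_lt hrR
  have hf : DifferentiableOn ℂ (fun u => ℓ (c + u)) (Metric.ball 0 R) := by
    intro u hu
    have h1 : θ < (c + u).re := hsub _ (by simpa using hu)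
    have h2 : DifferentiableAt ℂ ℓ (c + u) := (hd _ h1).differentiableAt ((Hp_open θ).mem_nhds h1)
    exact (h2.comp u (by fun_prop)).differentiableWithinAt
  have h := Complex.borelCaratheodory (f := fun u => ℓ (c + u)) (M := M) (R := R) (z := z - c) hM hf
    (fun u hu => hre _ (by simpa using hu)) hR (by simpa using hz.trans_lt hrR)
  simp only [add_sub_cancel, add_zero] at h
  refine h.trans ?_
  have hs : 0 < R - ‖z - c‖ := by linarith
  have hs' : 0 < R - r := by linarith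
  rw [← add_div]
  have h1 : 2 * M * ‖z - c‖ + ‖ℓ c‖ * (R + ‖z - c‖) ≤ 2 * M * r + 1 * (R + r) := by
    have : 0 ≤ ‖z - c‖ := norm_nonneg _
    gcongr
  calc (2 * M * ‖z - c‖ + ‖ℓ c‖ * (R + ‖z - c‖)) / (R - ‖z - c‖)
      ≤ (2 * M * r + 1 * (R + r)) / (R - ‖z - c‖) := by gcongr
    _ ≤ (2 * M * r + 1 * (R + r)) / (R - r) := by
        apply div_le_div_of_nonneg_left (by positivity) hs' (by linarith)
    _ = _ := by rw [one_mul]

/-- **Step 1 and 2.** The logarithm is small to the right of a zero free half plane. -/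
theorem log_small {θ δ A K : ℝ} (hθ0 : 0 ≤ θ) (hθ : θ ≤ 1 / 2) (hδ : 0 < δ) (hδ1 : δ ≤ 1 / 8) (hA : 0 < A)
    (hK : 0 < K) : ∃ C lam : ℝ, 0 < C ∧ 0 ≤ lam ∧ lam < 1 ∧ ∀ (g : ℂ → ℂ) (X : ℝ), 1 ≤ X → Differentiable ℂ g →
      (∀ z : ℂ, θ < z.re → g z ≠ 0) → (∀ z : ℂ, 3 ≤ z.re → ‖g z - 1‖ ≤ 1 / 2) →
      (∀ z : ℂ, 0 ≤ z.re → z.re ≤ 6 → ‖g z‖ ≤ Real.exp (A * (X + |z.im|))) →
      (∀ z : ℂ, 1 / 2 + 2 * δ ≤ z.re → ‖g z‖ ≤ Real.exp K) →
      ∃ ℓ : ℂ → ℂ, (∀ z, θ < z.re → Complex.exp (ℓ z) = g z) ∧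
        ∀ z : ℂ, θ + δ ≤ z.re → z.re ≤ θ + 2 * δ → ‖ℓ z‖ ≤ C * X ^ lam * ‖z + 3‖ := by
  obtain ⟨l, hl⟩ : ∃ l : ℝ, l = θ + δ / 2 := ⟨_, rfl⟩
  obtain ⟨u, hu⟩ : ∃ u : ℝ, u = 1 / 2 + 3 * δ := ⟨_, rfl⟩
  have hlu : l < u := by rw [hl, hu]; linarith
  obtain ⟨lam, hlam⟩ : ∃ lam : ℝ, lam = 1 - (δ / 2) / (u - l) := ⟨_, rfl⟩
  have hul : δ / 2 ≤ u - l := by rw [hl, hu]; linarith
  have hlam1 : lam < 1 := by
    rw [hlam]
    have : 0 < (δ / 2) / (u - l) := div_pos (by linarith) (by linarith)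
    linarith
  have hlam0 : 0 ≤ lam := by
    rw [hlam, sub_nonneg, div_le_one (by linarith)]
    exact hul
  obtain ⟨C₁, hC₁⟩ : ∃ C₁ : ℝ, C₁ = 24 / δ * (7 * A + 2) := ⟨_, rfl⟩
  obtain ⟨C₂, hC₂⟩ : ∃ C₂ : ℝ, C₂ = 6 * (K + 1) / δ := ⟨_, rfl⟩
  have hC₁0 : 0 < C₁ := by rw [hC₁]; positivity
  have hC₂0 : 0 < C₂ := by rw [hC₂]; positivity
  refine ⟨C₁ + C₂, lam, by positivity, hlam0, hlam1, ?_⟩
  intro g X hX hg hne h3 hgr hKb
  obtain ⟨ℓ, hd, hexp, hfar⟩ := exists_log hg hne (by linarith) h3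
  refine ⟨ℓ, hexp, ?_⟩
  have hre : ∀ w : ℂ, θ < w.re → (ℓ w).re = Real.log ‖g w‖ := by
    intro w hw
    rw [← hexp w hw, Complex.norm_exp, Real.log_exp]
  have hn3 : ∀ z : ℂ, 0 ≤ z.re → 3 ≤ ‖z + 3‖ ∧ |z.im| ≤ ‖z + 3‖ := by
    intro z hz
    constructor
    · have h1 := Complex.abs_re_le_norm (z + 3)
      have h2 : (z + 3).re = z.re + 3 := by simp
      rw [h2] at h1
      exact le_trans (by linarith [le_abs_self (z.re + 3)]) h1
    · have h1 := Complex.abs_im_le_norm (z + 3)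
      have h2 : (z + 3).im = z.im := by simp
      rwa [h2] at h1
  -- the first bound
  have hb1 : ∀ z : ℂ, l ≤ z.re → z.re ≤ 3 → ‖ℓ z‖ ≤ C₁ * X * ‖z + 3‖ := by
    intro z hz0 hz1
    obtain ⟨hz3, hzi⟩ := hn3 z (by rw [hl] at hz0; linarith)
    obtain ⟨c, hc⟩ : ∃ c : ℂ, c = 3 + z.im * Complex.I := ⟨_, rfl⟩
    have hcre : c.re = 3 := by rw [hc]; simp
    have hcim : c.im = z.im := by rw [hc]; simp
    obtain ⟨M, hM⟩ : ∃ M : ℝ, M = A * (X + (|z.im| + 3)) := ⟨_, rfl⟩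
    have hM0 : 0 < M := by
      rw [hM]
      have := abs_nonneg z.im
      positivity
    have hzc : ‖z - c‖ ≤ 3 - z.re := by
      have e : z - c = ((z.re - 3 : ℝ) : ℂ) := by
        apply Complex.ext
        · simp [hcre]
        · simp [hcim]
      rw [e, Complex.norm_real, Real.norm_eq_abs, abs_of_nonpos (by linarith)]
      linarith
    have hball : ∀ w : ℂ, ‖w - c‖ < 3 - θ - δ / 4 → θ + δ / 4 < w.re ∧ w.re ≤ 6 ∧ |w.im| ≤ |z.im| + 3 := by
      intro w hw
      have h1 := (Complex.abs_re_le_norm (w - c)).trans_lt hw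
      have h2 := (Complex.abs_im_le_norm (w - c)).trans_lt hw
      rw [Complex.sub_re, hcre] at h1
      rw [Complex.sub_im, hcim] at h2
      have h1' := abs_lt.1 h1
      refine ⟨by linarith, by linarith, ?_⟩
      have h4 := abs_sub_abs_le_abs_sub w.im z.im
      linarith
    have h := bc (θ := θ) (M := M) (R := 3 - θ - δ / 4) (r := 3 - l) hd (c := c) (hfar c hcre.ge) hM0
      (by rw [hl]; linarith) (by rw [hl]; linarith) (fun w hw => by
        have := (hball w hw).1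
        linarith) (fun w hw => by
        obtain ⟨w1, w2, w3⟩ := hball w hw
        rw [hre w (by linarith)]
        have h5 := hgr w (by linarith) w2
        have h6 : 0 < ‖g w‖ := norm_pos_iff.2 (hne w (by linarith))
        rw [Real.log_le_iff_le_exp h6]
        refine h5.trans (Real.exp_le_exp.2 ?_)
        rw [hM]
        gcongr) (z := z) (by linarith)
    refine h.trans ?_
    have e1 : 3 - θ - δ / 4 - (3 - l) = δ / 4 := by rw [hl]; ring
    rw [e1, div_le_iff₀ (by positivity)]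
    have e2 : 2 * M * (3 - l) + (3 - θ - δ / 4 + (3 - l)) ≤ 6 * M + 6 := by
      have : 2 * M * (3 - l) ≤ 2 * M * 3 := by
        apply mul_le_mul_of_nonneg_left _ (by positivity)
        rw [hl]; linarith
      rw [hl] at *
      linarith
    refine e2.trans ?_
    rw [hM, hC₁]
    have h7 : 24 / δ * (7 * A + 2) * X * ‖z + 3‖ * (δ / 4) = 6 * (7 * A + 2) * X * ‖z + 3‖ := by
      field_simp
      ring
    rw [h7]
    have h8 : X ≤ X * ‖z + 3‖ := by nlinarith
    have h9 : |z.im| ≤ X * ‖z + 3‖ := by nlinarith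
    have h10 : (3 : ℝ) ≤ X * ‖z + 3‖ := by nlinarith
    have h11 : A * (X + (|z.im| + 3)) ≤ A * (3 * (X * ‖z + 3‖)) := by
      apply mul_le_mul_of_nonneg_left _ hA.le
      linarith
    nlinarith
  -- the second bound
  have hb2 : ∀ z : ℂ, u ≤ z.re → z.re ≤ 3 → ‖ℓ z‖ ≤ C₂ := by
    intro z hz0 hz1
    obtain ⟨c, hc⟩ : ∃ c : ℂ, c = 3 + z.im * Complex.I := ⟨_, rfl⟩
    have hcre : c.re = 3 := by rw [hc]; simp
    have hcim : c.im = z.im := by rw [hc]; simp
    have hzc : ‖z - c‖ ≤ 3 - z.re := by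
      have e : z - c = ((z.re - 3 : ℝ) : ℂ) := by
        apply Complex.ext
        · simp [hcre]
        · simp [hcim]
      rw [e, Complex.norm_real, Real.norm_eq_abs, abs_of_nonpos (by linarith)]
      linarith
    have hball : ∀ w : ℂ, ‖w - c‖ < 3 - (1 / 2 + 2 * δ) → 1 / 2 + 2 * δ < w.re := by
      intro w hw
      have h1 := (Complex.abs_re_le_norm (w - c)).trans_lt hw
      rw [Complex.sub_re, hcre] at h1
      have h1' := abs_lt.1 h1
      linarith
    have h := bc (θ := θ) (M := K) (R := 3 - (1 / 2 + 2 * δ)) (r := 3 - u) hd (c := c) (hfar c hcre.ge) hK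
      (by rw [hu]; linarith) (by rw [hu]; linarith) (fun w hw => by
        have := hball w hw
        linarith) (fun w hw => by
        have w1 := hball w hw
        rw [hre w (by linarith)]
        have h5 := hKb w w1.le
        have h6 : 0 < ‖g w‖ := norm_pos_iff.2 (hne w (by linarith))
        rwa [Real.log_le_iff_le_exp h6]) (z := z) (by linarith)
    refine h.trans ?_
    have e1 : 3 - (1 / 2 + 2 * δ) - (3 - u) = δ := by rw [hu]; ring
    rw [e1, hC₂]
    gcongr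
    rw [hu]
    nlinarith
  intro z hz0 hz1
  -- three lines
  obtain ⟨H, hH⟩ : ∃ H : ℂ → ℂ, H = fun z => ℓ z / (z + 3) := ⟨_, rfl⟩
  have hpos : ∀ z : ℂ, 0 ≤ z.re → 0 < ‖z + 3‖ := fun z hz => by linarith [(hn3 z hz).1]
  have hHb1 : ∀ z : ℂ, l ≤ z.re → z.re ≤ 3 → ‖H z‖ ≤ C₁ * X := by
    intro z hz0 hz1
    rw [hH]
    simp only
    rw [norm_div, div_le_iff₀ (hpos z (by rw [hl] at hz0; linarith))]
    exact hb1 z hz0 hz1
  have hHb2 : ∀ z : ℂ, u ≤ z.re → z.re ≤ 3 → ‖H z‖ ≤ C₂ := by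
    intro z hz0 hz1
    have hz0' : 0 ≤ z.re := by rw [hu] at hz0; linarith
    rw [hH]
    simp only
    rw [norm_div, div_le_iff₀ (hpos z hz0')]
    have h1 := hb2 z hz0 hz1
    have h2 := (hn3 z hz0').1
    nlinarith
  have hzmem : z ∈ Complex.HadamardThreeLines.verticalClosedStrip l u := by
    show z.re ∈ Icc l u
    exact ⟨by rw [hl]; linarith, by rw [hu]; linarith⟩
  have hdc : DiffContOnCl ℂ H (Complex.HadamardThreeLines.verticalStrip l u) := by
    refine DifferentiableOn.diffContOnCl fun w hw => ?_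
    have hw' : w ∈ Complex.re ⁻¹' (Icc l u) := by
      have : closure (Complex.re ⁻¹' (Ioo l u)) ⊆ Complex.re ⁻¹' (Icc l u) :=
        closure_minimal (preimage_mono Ioo_subset_Icc_self) (isClosed_Icc.preimage Complex.continuous_re)
      exact this hw
    have hw1 : θ < w.re := by
      have := hw'.1
      rw [hl] at this
      linarith
    rw [hH]
    refine (DifferentiableAt.div ((hd w hw1).differentiableAt ((Hp_open θ).mem_nhds hw1)) (by fun_prop) ?_).differentiableWithinAt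
    exact norm_pos_iff.1 (hpos w (by linarith))
  have h := Complex.HadamardThreeLines.norm_le_interp_of_mem_verticalClosedStrip' hlu hzmem hdc
    (by
      refine ⟨C₁ * X, ?_⟩
      rintro _ ⟨w, hw, rfl⟩
      have hw' : w.re ∈ Icc l u := hw
      exact hHb1 w hw'.1 (by have := hw'.2; rw [hu] at this; linarith))
    (a := C₁ * X) (b := C₂)
    (fun w hw => by
      have hw' : w.re = l := hw
      exact hHb1 w hw'.ge (by rw [hw', hl]; linarith))
    (fun w hw => by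
      have hw' : w.re = u := hw
      exact hHb2 w hw'.ge (by rw [hw', hu]; linarith))
  obtain ⟨t, ht⟩ : ∃ t : ℝ, t = (z.re - l) / (u - l) := ⟨_, rfl⟩
  rw [← ht] at h
  have ht0 : (δ / 2) / (u - l) ≤ t := by
    rw [ht]
    apply div_le_div_of_nonneg_right _ (by linarith)
    rw [hl]; linarith
  have ht1 : t ≤ 1 := by
    rw [ht, div_le_one (by linarith), hl, hu]
    linarith
  have hD : 0 < C₁ + C₂ := by positivity
  have h2 : (C₁ * X) ^ (1 - t) * C₂ ^ t ≤ (C₁ + C₂) * X ^ lam := by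
    have h4 : 0 ≤ t := le_trans (div_nonneg (by linarith) (by linarith)) ht0
    calc (C₁ * X) ^ (1 - t) * C₂ ^ t ≤ ((C₁ + C₂) * X) ^ (1 - t) * (C₁ + C₂) ^ t := by
          gcongr
          · linarith
          · linarith
      _ = (C₁ + C₂) * X ^ (1 - t) := by
          rw [Real.mul_rpow hD.le (by linarith)]
          have h5 : (C₁ + C₂) ^ (1 - t) * (C₁ + C₂) ^ t = C₁ + C₂ := by
            rw [← Real.rpow_add hD]
            simp
          calc (C₁ + C₂) ^ (1 - t) * X ^ (1 - t) * (C₁ + C₂) ^ t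
              = ((C₁ + C₂) ^ (1 - t) * (C₁ + C₂) ^ t) * X ^ (1 - t) := by ring
            _ = _ := by rw [h5]
      _ ≤ (C₁ + C₂) * X ^ lam := by
          gcongr
          rw [hlam]
          linarith
  have hz' : 0 < ‖z + 3‖ := hpos z (by linarith)
  have h6 : ‖ℓ z‖ = ‖H z‖ * ‖z + 3‖ := by
    rw [hH]
    simp only
    rw [norm_div, div_mul_cancel₀ _ hz'.ne']
  rw [h6]
  gcongr
  exact h.trans h2

end Pool.Agent.H572.OB
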