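import Pool.Agent.H572.OB.Strip
import Pool.Agent.H572.OB.Log
import Pool.Graph.R_seed8.TH270.MS.GrowthLeft

/-!
# The order at the central point and zero free half planes: the analytic core
-/

set_option autoImplicit false

open Filter Topology Set Complex
open Pool.Agent.TH270.MS.GrowL

namespace Pool.Agent.H572.OB

/-- `g(z) = L(1 + z)`, `Λ(z) = (√N / 2π)^{1+z} Γ(1+z) g(z)` -/
structure Dat (θ δ K N : ℝ) (g Λ : ℂ → ℂ) : Prop where
  N1 : 1 ≤ N
  gd : Differentiable ℂ g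
  Ld : Differentiable ℂ Λ
  eq : ∀ z : ℂ, -1 < z.re → Λ z = ((√N / (2 * Real.pi) : ℝ) : ℂ) ^ (1 + z) * Complex.Gamma (1 + z) * g z
  sym : ∀ z : ℂ, ‖Λ (-z)‖ = ‖Λ z‖
  bdd : ∀ R : ℝ, ∃ M : ℝ, ∀ z : ℂ, |z.re| ≤ R → ‖Λ z‖ ≤ M
  near : ∀ z : ℂ, 1 / 2 + 2 * δ ≤ z.re → ‖g z‖ ≤ Real.exp K
  far : ∀ z : ℂ, 3 ≤ z.re → ‖g z - 1‖ ≤ 1 / 2
  ne : ∀ z : ℂ, θ < z.re → g z ≠ 0

/-- a global bound of `1/Γ` in a strip -/
lemma inv_Gamma_bound : ∃ C : ℝ, 1 ≤ C ∧ ∀ z : ℂ, 0 ≤ z.re → z.re ≤ 8 →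
    ‖(Complex.Gamma z)⁻¹‖ ≤ C * Real.exp (Real.pi * |z.im|) := by
  obtain ⟨C₁, h1, hC₁⟩ := inv_Gamma_strip 0 8
  have hK : IsCompact (Icc (0 : ℝ) 8 ×ℂ Icc (-1 : ℝ) 1) := isCompact_Icc.reProdIm isCompact_Icc
  obtain ⟨C₂, hC₂⟩ := hK.exists_bound_of_continuousOn
    (Complex.differentiable_one_div_Gamma.continuous.continuousOn (s := Icc (0 : ℝ) 8 ×ℂ Icc (-1 : ℝ) 1))
  refine ⟨1 + C₁ + |C₂|, by linarith [abs_nonneg C₂], fun z h0 h8 => ?_⟩
  have hexp : 1 ≤ Real.exp (Real.pi * |z.im|) := Real.one_le_exp (by positivity)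
  rcases le_total 1 |z.im| with h | h
  · refine (hC₁ z h0 h8 h).trans ?_
    gcongr
    linarith [abs_nonneg C₂]
  · have hz : z ∈ Icc (0 : ℝ) 8 ×ℂ Icc (-1 : ℝ) 1 := ⟨⟨h0, h8⟩, abs_le.1 h⟩
    have h3 := hC₂ z hz
    have h4 := le_abs_self C₂
    calc ‖(Complex.Gamma z)⁻¹‖ ≤ |C₂| * 1 := by linarith
      _ ≤ (1 + C₁ + |C₂|) * Real.exp (Real.pi * |z.im|) := by
          gcongr
          linarith

variable {θ δ K N : ℝ} {g Λ : ℂ → ℂ}

lemma Dat.D_pos (h : Dat θ δ K N g Λ) : 0 < √N / (2 * Real.pi) := by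
  have := h.N1
  positivity

lemma Dat.norm_eq (h : Dat θ δ K N g Λ) {z : ℂ} (hz : -1 < z.re) :
    ‖Λ z‖ = (√N / (2 * Real.pi)) ^ (1 + z.re) * ‖Complex.Gamma (1 + z)‖ * ‖g z‖ := by
  rw [h.eq z hz, norm_mul, norm_mul, Complex.norm_cpow_eq_rpow_re_of_pos h.D_pos]
  simp

/-- maximum principle in the strip `|Re z| ≤ a` -/
lemma Dat.max (h : Dat θ δ K N g Λ) {a M : ℝ} (ha : 0 < a) (hM : ∀ z : ℂ, z.re = a → ‖Λ z‖ ≤ M) {z : ℂ}
    (hz : |z.re| ≤ a) : ‖Λ z‖ ≤ M := by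
  obtain ⟨M', hM'⟩ := h.bdd a
  refine PhragmenLindelof.vertical_strip (a := -a) (b := a) (f := Λ) (C := M) ?_ ?_ ?_ ?_ ?_ ?_
  · exact h.Ld.diffContOnCl
  · refine ⟨0, div_pos Real.pi_pos (by linarith), 0, ?_⟩
    apply Asymptotics.IsBigO.of_bound M'
    rw [Filter.eventually_inf_principal]
    refine Eventually.of_forall fun w hw => ?_
    have := hM' w (abs_le.2 ⟨(mem_preimage.1 hw).1.le, (mem_preimage.1 hw).2.le⟩)
    simpa using this
  · intro w hw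
    rw [← h.sym]
    exact hM _ (by rw [Complex.neg_re, hw, neg_neg])
  · exact hM
  · exact (abs_le.1 hz).1
  · exact (abs_le.1 hz).2

theorem growth : ∃ A : ℝ, 0 < A ∧ ∀ (θ δ K N : ℝ) (g Λ : ℂ → ℂ), Dat θ δ K N g Λ → ∀ z : ℂ, 0 ≤ z.re →
    z.re ≤ 6 → ‖g z‖ ≤ Real.exp (A * ((1 + Real.log N) + |z.im|)) := by
  obtain ⟨C, hC1, hC⟩ := inv_Gamma_bound
  have hG7 : 0 < Real.Gamma 7 := Real.Gamma_pos_of_pos (by norm_num)
  have hG7' : 1 ≤ Real.Gamma 7 := by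
    have : Real.Gamma 7 = 720 := by
      have h := Real.Gamma_nat_eq_factorial 6
      have e : ((6 : ℕ) : ℝ) + 1 = 7 := by norm_num
      rw [e] at h
      rw [h]
      norm_num [Nat.factorial]
    rw [this]; norm_num
  refine ⟨4 + Real.log (Real.Gamma 7 * (3 / 2) * C), ?_, ?_⟩
  · have : 0 ≤ Real.log (Real.Gamma 7 * (3 / 2) * C) := Real.log_nonneg (by nlinarith)
    linarith
  intro θ δ K N g Λ h z hz0 hz6
  have hN0 : 0 < N := by linarith [h.N1]
  have hDp := h.D_pos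
  have hs1 : 1 ≤ √N := Real.one_le_sqrt.2 h.N1
  have hmax : ‖Λ z‖ ≤ (√N / (2 * Real.pi)) ^ (7 : ℝ) * Real.Gamma 7 * (3 / 2) := by
    refine h.max (a := 6) (by norm_num) (fun w hw => ?_) (by rw [abs_of_nonneg hz0]; exact hz6)
    rw [h.norm_eq (by rw [hw]; norm_num), hw]
    have h1 : ‖Complex.Gamma (1 + w)‖ ≤ Real.Gamma 7 := by
      have := norm_Gamma_le (z := 1 + w) (by simp [hw]; norm_num)
      have e : (1 + w).re = 7 := by simp [hw]; norm_num
      rwa [e] at this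
    have h2 : ‖g w‖ ≤ 3 / 2 := by
      have h3 := h.far w (by rw [hw]; norm_num)
      have h4 := norm_add_le (g w - 1) 1
      rw [sub_add_cancel, norm_one] at h4
      linarith
    have e : (1 : ℝ) + 6 = 7 := by norm_num
    rw [e]
    gcongr
  have hne : Complex.Gamma (1 + z) ≠ 0 := Complex.Gamma_ne_zero_of_re_pos (by simp; linarith)
  have h1 := h.norm_eq (z := z) (by linarith)
  have h2 := hC (1 + z) (by simp; linarith) (by simp; linarith)
  have e2 : (1 + z).im = z.im := by simp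
  rw [e2] at h2
  have hDx : 0 < (√N / (2 * Real.pi)) ^ (1 + z.re) := Real.rpow_pos_of_pos hDp _
  have h3 : ‖g z‖ = ‖Λ z‖ * ((√N / (2 * Real.pi)) ^ (1 + z.re))⁻¹ * ‖(Complex.Gamma (1 + z))⁻¹‖ := by
    rw [h1, norm_inv]
    have := norm_ne_zero_iff.2 hne
    field_simp
  have h4 : (√N / (2 * Real.pi)) ^ (7 : ℝ) * ((√N / (2 * Real.pi)) ^ (1 + z.re))⁻¹ ≤ N ^ (3 : ℝ) := by
    rw [← Real.rpow_neg hDp.le, ← Real.rpow_add hDp]
    have h5 : √N / (2 * Real.pi) ≤ √N := by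
      apply div_le_self (Real.sqrt_nonneg _)
      linarith [Real.pi_gt_three]
    calc (√N / (2 * Real.pi)) ^ (7 + -(1 + z.re)) ≤ √N ^ (7 + -(1 + z.re)) :=
          Real.rpow_le_rpow hDp.le h5 (by linarith)
      _ ≤ √N ^ (6 : ℝ) := Real.rpow_le_rpow_of_exponent_le hs1 (by linarith)
      _ = N ^ (3 : ℝ) := by
          rw [Real.sqrt_eq_rpow, ← Real.rpow_mul hN0.le]
          norm_num
  have h6 : ‖g z‖ ≤ N ^ (3 : ℝ) * (Real.Gamma 7 * (3 / 2) * C) * Real.exp (Real.pi * |z.im|) := by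
    rw [h3]
    calc ‖Λ z‖ * ((√N / (2 * Real.pi)) ^ (1 + z.re))⁻¹ * ‖(Complex.Gamma (1 + z))⁻¹‖
        ≤ ((√N / (2 * Real.pi)) ^ (7 : ℝ) * Real.Gamma 7 * (3 / 2)) * ((√N / (2 * Real.pi)) ^ (1 + z.re))⁻¹ *
          (C * Real.exp (Real.pi * |z.im|)) := by gcongr
      _ = ((√N / (2 * Real.pi)) ^ (7 : ℝ) * ((√N / (2 * Real.pi)) ^ (1 + z.re))⁻¹) *
          (Real.Gamma 7 * (3 / 2) * C) * Real.exp (Real.pi * |z.im|) := by ring
      _ ≤ _ := by gcongr
  refine h6.trans ?_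
  have hpos : 0 < Real.Gamma 7 * (3 / 2) * C := by positivity
  have hlog : 0 ≤ Real.log (Real.Gamma 7 * (3 / 2) * C) := Real.log_nonneg (by nlinarith)
  have hlN : 0 ≤ Real.log N := Real.log_nonneg h.N1
  rw [Real.rpow_def_of_pos hN0, ← Real.exp_log hpos, ← Real.exp_add, ← Real.exp_add, Real.exp_log hpos]
  apply Real.exp_le_exp.2
  have h7 : Real.pi * |z.im| ≤ 4 * |z.im| := by
    apply mul_le_mul_of_nonneg_right Real.pi_le_four (abs_nonneg _)
  have h8 := abs_nonneg z.im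
  nlinarith [mul_nonneg hlog h8, mul_nonneg hlog hlN]

/-- **The analytic core.** -/
theorem core {θ δ K : ℝ} (hθ0 : 0 ≤ θ) (hθ : θ ≤ 1 / 2) (hδ : 0 < δ) (hδ1 : δ ≤ 1 / 8) (hK : 0 < K) :
    ∃ C lam : ℝ, 0 < C ∧ 0 ≤ lam ∧ lam < 1 ∧ ∀ (N : ℝ) (g Λ : ℂ → ℂ), Dat θ δ K N g Λ →
      ∀ (m : ℕ) (h : ℂ → ℂ), Differentiable ℂ h → (∀ z, Λ z = z ^ m * h z) →
        (m : ℝ) ≤ (θ + 2 * δ) / Real.pi * Real.log N + C * (1 + Real.log N) ^ lam := by
  obtain ⟨A, hA, hgr⟩ := growth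
  obtain ⟨C₀, lam, hC₀, hlam0, hlam1, hlog⟩ := log_small hθ0 hθ hδ hδ1 hA hK
  obtain ⟨a, ha⟩ : ∃ a : ℝ, a = θ + 2 * δ := ⟨_, rfl⟩
  obtain ⟨x, hx⟩ : ∃ x : ℝ, x = θ + δ := ⟨_, rfl⟩
  have ha0 : 0 < a := by rw [ha]; linarith
  have hx0 : 0 < x := by rw [hx]; linarith
  have hxa : x < a := by rw [ha, hx]; linarith
  have ha34 : a ≤ 3 / 4 := by rw [ha]; linarith
  have hΓa : 0 < Real.Gamma (1 + a) := Real.Gamma_pos_of_pos (by linarith)
  have hΓx : 0 < Real.Gamma (1 + x) := Real.Gamma_pos_of_pos (by linarith)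
  obtain ⟨G, hG⟩ : ∃ G : ℝ, G = |Real.log (Real.Gamma (1 + a)) - Real.log (Real.Gamma (1 + x))| := ⟨_, rfl⟩
  have hG0 : 0 ≤ G := by rw [hG]; exact abs_nonneg _
  refine ⟨2 * a / (Real.pi * δ) * (G + 9 * C₀), lam, ?_, hlam0, hlam1, ?_⟩
  · have := Real.pi_pos
    positivity
  intro N g Λ hD m h hh hΛ
  have hN0 : 0 < N := by linarith [hD.N1]
  have hlN : 0 ≤ Real.log N := Real.log_nonneg hD.N1
  have hX1 : 1 ≤ 1 + Real.log N := by linarith
  obtain ⟨ℓ, hexp, hb⟩ := hlog g (1 + Real.log N) hX1 hD.gd hD.ne hD.far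
    (hgr θ δ K N g Λ hD) hD.near
  obtain ⟨B, hB⟩ : ∃ B : ℝ, B = C₀ * (1 + Real.log N) ^ lam := ⟨_, rfl⟩
  have hXl : 1 ≤ (1 + Real.log N) ^ lam := Real.one_le_rpow hX1 hlam0
  have hB0 : 0 ≤ B := by rw [hB]; positivity
  rw [← hB] at hb
  have hDp := hD.D_pos
  obtain ⟨D, hDe⟩ : ∃ D : ℝ, D = √N / (2 * Real.pi) := ⟨_, rfl⟩
  rw [← hDe] at hDp
  have hnorm : ∀ z : ℂ, θ < z.re → ‖g z‖ = Real.exp (ℓ z).re := by
    intro z hz
    rw [← hexp z hz, Complex.norm_exp]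
  -- the boundary
  have hbd : ∀ z : ℂ, z.re = a → ‖Λ z‖ ≤ D ^ (1 + a) * Real.Gamma (1 + a) * Real.exp (B * (a + 3 + |z.im|)) := by
    intro z hz
    rw [hD.norm_eq (by rw [hz]; linarith), hz, ← hDe]
    have h1 : ‖Complex.Gamma (1 + z)‖ ≤ Real.Gamma (1 + a) := by
      have := norm_Gamma_le (z := 1 + z) (by simp [hz]; linarith)
      have e : (1 + z).re = 1 + a := by simp [hz]
      rwa [e] at this
    have h2 : ‖g z‖ ≤ Real.exp (B * (a + 3 + |z.im|)) := by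
      rw [hnorm z (by rw [hz, ha]; linarith)]
      apply Real.exp_le_exp.2
      refine (Complex.re_le_norm _).trans ((hb z (by rw [hz, ha]; linarith) (by rw [hz, ha])).trans ?_)
      apply mul_le_mul_of_nonneg_left _ hB0
      have h3 := Complex.norm_le_abs_re_add_abs_im (z + 3)
      have e1 : (z + 3).re = a + 3 := by simp [hz]
      have e2 : (z + 3).im = z.im := by simp
      rw [e1, e2, abs_of_pos (by linarith)] at h3
      exact h3
    gcongr
  have hsch := schwarz_strip (Λ := fun z => Λ z * Complex.exp (B * z ^ 2)) (h := fun z => h z * Complex.exp (B * z ^ 2))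
    (m := m) (hh.mul (by fun_prop)) (fun z => by rw [hΛ]; ring) (a := a)
    (M := D ^ (1 + a) * Real.Gamma (1 + a) * Real.exp (5 * B)) ha0 ?_ ?_ hx0 hxa
  rotate_left
  · obtain ⟨M', hM'⟩ := hD.bdd a
    refine ⟨M' * Real.exp (B * a ^ 2), fun z hz => ?_⟩
    rw [norm_mul]
    have h0 : 0 ≤ M' := (norm_nonneg _).trans (hM' z hz)
    have h1 : ‖Complex.exp (B * z ^ 2)‖ ≤ Real.exp (B * a ^ 2) := by
      rw [Complex.norm_exp]
      apply Real.exp_le_exp.2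
      have e : ((B : ℂ) * z ^ 2).re = B * (z.re ^ 2 - z.im ^ 2) := by
        simp [pow_two]
      rw [e]
      apply mul_le_mul_of_nonneg_left _ hB0
      have h3 : z.re ^ 2 ≤ a ^ 2 := sq_le_sq' (abs_le.1 hz).1 (abs_le.1 hz).2
      nlinarith [sq_nonneg z.im]
    exact mul_le_mul (hM' z hz) h1 (norm_nonneg _) h0
  · intro z hz
    rw [norm_mul]
    have hΛz : ‖Λ z‖ ≤ D ^ (1 + a) * Real.Gamma (1 + a) * Real.exp (B * (a + 3 + |z.im|)) := by
      rcases abs_choice z.re with h1 | h1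
      · exact hbd z (by rw [← h1, hz])
      · rw [← hD.sym]
        have := hbd (-z) (by rw [Complex.neg_re, ← h1, hz])
        rwa [Complex.neg_im, abs_neg] at this
    have hez : ‖Complex.exp (B * z ^ 2)‖ = Real.exp (B * (a ^ 2 - z.im ^ 2)) := by
      rw [Complex.norm_exp]
      congr 1
      have e : ((B : ℂ) * z ^ 2).re = B * (z.re ^ 2 - z.im ^ 2) := by
        simp [pow_two]
      rw [e, ← sq_abs z.re, hz]
    rw [hez]
    calc ‖Λ z‖ * Real.exp (B * (a ^ 2 - z.im ^ 2))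
        ≤ D ^ (1 + a) * Real.Gamma (1 + a) * Real.exp (B * (a + 3 + |z.im|)) * Real.exp (B * (a ^ 2 - z.im ^ 2)) := by
          gcongr
      _ = D ^ (1 + a) * Real.Gamma (1 + a) * Real.exp (B * (a + 3 + |z.im|) + B * (a ^ 2 - z.im ^ 2)) := by
          rw [Real.exp_add]; ring
      _ ≤ D ^ (1 + a) * Real.Gamma (1 + a) * Real.exp (5 * B) := by
          gcongr
          have h4 : a + 3 + |z.im| + (a ^ 2 - z.im ^ 2) ≤ 5 := by
            rw [← sq_abs z.im]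
            nlinarith [sq_nonneg (|z.im| - 1 / 2)]
          nlinarith
  -- the lower bound at `x`
  have hlow : D ^ (1 + x) * Real.Gamma (1 + x) * Real.exp (-(4 * B)) ≤ ‖Λ x * Complex.exp (B * (x : ℂ) ^ 2)‖ := by
    rw [norm_mul]
    have h1 : 1 ≤ ‖Complex.exp (B * (x : ℂ) ^ 2)‖ := by
      rw [Complex.norm_exp]
      apply Real.one_le_exp
      have e : ((B : ℂ) * (x : ℂ) ^ 2).re = B * x ^ 2 := by
        simp [pow_two]
      rw [e]
      positivity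
    have h2 : D ^ (1 + x) * Real.Gamma (1 + x) * Real.exp (-(4 * B)) ≤ ‖Λ x‖ := by
      rw [hD.norm_eq (by rw [Complex.ofReal_re]; linarith), Complex.ofReal_re, ← hDe]
      have h3 : ‖Complex.Gamma (1 + (x : ℂ))‖ = Real.Gamma (1 + x) := by
        have : (1 : ℂ) + (x : ℂ) = ((1 + x : ℝ) : ℂ) := by push_cast; ring
        rw [this, Complex.Gamma_ofReal, Complex.norm_real, Real.norm_of_nonneg hΓx.le]
      rw [h3]
      have h4 : Real.exp (-(4 * B)) ≤ ‖g x‖ := by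
        rw [hnorm x (by rw [Complex.ofReal_re, hx]; linarith)]
        apply Real.exp_le_exp.2
        have h5 := hb x (by rw [Complex.ofReal_re, hx]) (by rw [Complex.ofReal_re, hx]; linarith)
        have h6 : ‖(x : ℂ) + 3‖ ≤ 4 := by
          have : (x : ℂ) + 3 = ((x + 3 : ℝ) : ℂ) := by push_cast; ring
          rw [this, Complex.norm_real, Real.norm_of_nonneg (by linarith)]
          linarith
        have h7 := (abs_le.1 (Complex.abs_re_le_norm (ℓ x))).1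
        nlinarith
      gcongr
    calc D ^ (1 + x) * Real.Gamma (1 + x) * Real.exp (-(4 * B)) ≤ ‖Λ x‖ * 1 := by rw [mul_one]; exact h2
      _ ≤ _ := by gcongr
  have htan := tan_le hx0 hxa
  have htan0 : 0 ≤ Real.tan (Real.pi * x / (4 * a)) := by
    apply Real.tan_nonneg_of_nonneg_of_le_pi_div_two
    · have := Real.pi_pos
      positivity
    · rw [div_le_div_iff₀ (by positivity) (by norm_num)]
      nlinarith [Real.pi_pos, mul_pos Real.pi_pos hx0]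
  have hall : D ^ (1 + x) * Real.Gamma (1 + x) * Real.exp (-(4 * B)) ≤
      D ^ (1 + a) * Real.Gamma (1 + a) * Real.exp (5 * B) * Real.exp (-(Real.pi * (a - x) / (2 * a))) ^ m := by
    refine hlow.trans (hsch.trans ?_)
    gcongr
  have hl := Real.log_le_log (by positivity) hall
  rw [Real.log_mul (by positivity) (by positivity), Real.log_mul (by positivity) (by positivity),
    Real.log_mul (by positivity) (by positivity), Real.log_mul (by positivity) (by positivity),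
    Real.log_mul (by positivity) (by positivity), Real.log_pow, Real.log_exp, Real.log_exp, Real.log_exp,
    Real.log_rpow hDp, Real.log_rpow hDp] at hl
  have hlD : Real.log D ≤ Real.log N / 2 := by
    rw [hDe, Real.log_div (by positivity) (by positivity), Real.log_sqrt hN0.le]
    have : 0 ≤ Real.log (2 * Real.pi) := Real.log_nonneg (by linarith [Real.pi_gt_three])
    linarith
  have hax : a - x = δ := by rw [ha, hx]; ring
  rw [hax] at hl
  have hGG : Real.log (Real.Gamma (1 + a)) - Real.log (Real.Gamma (1 + x)) ≤ G := by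
    rw [hG]; exact le_abs_self _
  have h9 : (m : ℝ) * (Real.pi * δ / (2 * a)) ≤ δ * (Real.log N / 2) + G + 9 * B := by
    have h10 : (a - x) * Real.log D ≤ δ * (Real.log N / 2) := by
      rw [hax]
      exact mul_le_mul_of_nonneg_left hlD hδ.le
    nlinarith
  have hpi := Real.pi_pos
  have h11 : (m : ℝ) ≤ (δ * (Real.log N / 2) + G + 9 * B) * (2 * a / (Real.pi * δ)) := by
    calc (m : ℝ) = (m : ℝ) * (Real.pi * δ / (2 * a)) * (2 * a / (Real.pi * δ)) := by field_simp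
      _ ≤ _ := by gcongr
  refine h11.trans ?_
  rw [← ha]
  have h12 : (δ * (Real.log N / 2) + G + 9 * B) * (2 * a / (Real.pi * δ)) =
      a / Real.pi * Real.log N + 2 * a / (Real.pi * δ) * (G + 9 * B) := by
    field_simp
    ring
  rw [h12, hB]
  have h13 : G + 9 * (C₀ * (1 + Real.log N) ^ lam) ≤ (G + 9 * C₀) * (1 + Real.log N) ^ lam := by
    nlinarith
  calc a / Real.pi * Real.log N + 2 * a / (Real.pi * δ) * (G + 9 * (C₀ * (1 + Real.log N) ^ lam))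
      ≤ a / Real.pi * Real.log N + 2 * a / (Real.pi * δ) * ((G + 9 * C₀) * (1 + Real.log N) ^ lam) := by gcongr
    _ = _ := by ring

end Pool.Agent.H572.OB
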