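import Pool.Agent.H572.OB.Mod

/-!
# The incomplete L-series of an elliptic curve and the L-function of its newform
-/

set_option autoImplicit false

open Filter Topology Set Complex
open CongruenceSubgroup
open scoped MatrixGroups
open Pool.Agent.TH941 (Hecke Belongs)
open Pool.Agent.W165.RS (ac ac_zero)
open Pool.Agent.W263.BSD (IsLSeries GoodPrime pointCount good_of_large order_finite)
open Pool.Agent.TH942.RZ Pool.Agent.TH942.RZ.Growth
open Pool.Agent.TH270.MS.EQ (Df_ge')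

namespace Pool.Agent.H572.OB

variable {a b : ℤ} {F : ℂ → ℂ} {N : ℕ} [NeZero N] {f : CuspForm (Gamma0 N : Subgroup (GL (Fin 2) ℝ)) 2}

/-- the Euler factors of the newform do not vanish at `s = 1` -/
lemma Ef_one_ne (hf : Hecke f) {p : ℕ} (hp : p.Prime) : Ef (ac f) N p 1 ≠ 0 := by
  have hp0 : (0 : ℝ) < p := by exact_mod_cast hp.pos
  have hp2 : (2 : ℝ) ≤ p := by exact_mod_cast hp.two_le
  have hc : ac f p = ((ac f p).re : ℂ) := by
    apply Complex.ext
    · simp
    · simp [hf.real p]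
  have e1 : (p : ℂ) ^ (-(1 : ℂ)) = (((p : ℝ)⁻¹ : ℝ) : ℂ) := by
    rw [Complex.cpow_neg, Complex.cpow_one]
    push_cast
    rfl
  have e2 : (p : ℂ) ^ (1 - 2 * (1 : ℂ)) = (((p : ℝ)⁻¹ : ℝ) : ℂ) := by
    have : (1 - 2 * 1 : ℂ) = -1 := by ring
    rw [this, e1]
  unfold Ef
  rw [e1, e2]
  by_cases hN : p ∣ N
  · rw [if_pos hN, add_zero, sub_ne_zero]
    intro h
    have h1 := congrArg norm h
    rw [norm_one, norm_mul, Complex.norm_real, Real.norm_of_nonneg (by positivity)] at h1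
    have h2 := hf.bad p hp hN
    have h3 : ‖ac f p‖ * (p : ℝ)⁻¹ ≤ 1 * (p : ℝ)⁻¹ := by gcongr
    have h4 : (p : ℝ)⁻¹ ≤ 2⁻¹ := by
      rw [inv_le_inv₀ hp0 (by norm_num)]
      exact hp2
    rw [← h1] at h3
    linarith
  · rw [if_neg hN, hc]
    intro h
    have h2 := hf.good p hp hN
    rw [hc, Complex.norm_real, Real.norm_eq_abs] at h2
    have h3 := (le_abs_self _).trans h2
    have h4 : (1 - (ac f p).re * (p : ℝ)⁻¹ + (p : ℝ)⁻¹ : ℝ) = 0 := by exact_mod_cast h
    have h5 : (p : ℝ) + 1 - (ac f p).re = 0 := by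
      have : (p : ℝ) * (1 - (ac f p).re * (p : ℝ)⁻¹ + (p : ℝ)⁻¹) = p + 1 - (ac f p).re := by
        field_simp
        ring
      rw [← this, h4, mul_zero]
    have h6 : √(p : ℝ) ^ 2 = p := Real.sq_sqrt hp0.le
    have h7 : 1 < √(p : ℝ) := by
      rw [Real.lt_sqrt zero_le_one]
      linarith
    nlinarith

/-- the relation of the two L-functions -/
theorem identity (hΔ : 4 * a ^ 3 + 27 * b ^ 2 ≠ 0) (hF : IsLSeries a b F) (hf : Hecke f) (hb : Belongs a b f) :
    ∃ P1 P2 : ℂ → ℂ, Differentiable ℂ P1 ∧ Differentiable ℂ P2 ∧ (∀ z, F z * P2 z = Lf f z * P1 z) ∧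
      P1 1 ≠ 0 ∧ ∀ z : ℂ, 1 ≤ z.re → P2 z ≠ 0 := by
  classical
  obtain ⟨D, hD⟩ := good_of_large hΔ
  have hN0 : N ≠ 0 := NeZero.ne N
  obtain ⟨S, hSe⟩ : ∃ S : Finset ℕ, S = (Finset.range (D + N + 1)).filter
      (fun p => p.Prime ∧ (¬ GoodPrime a b p ∨ p ∣ N)) := ⟨_, rfl⟩
  have hSp : ∀ p ∈ S, p.Prime := by
    intro p hp
    rw [hSe, Finset.mem_filter] at hp
    exact hp.2.1
  have hSn : ∀ p : ℕ, p.Prime → p ∉ S → GoodPrime a b p ∧ ¬ p ∣ N := by
    intro p hp hpS
    rw [hSe, Finset.mem_filter, Finset.mem_range] at hpS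
    by_cases hlt : p < D + N + 1
    · by_contra hcon
      apply hpS
      refine ⟨hlt, hp, ?_⟩
      tauto
    · refine ⟨hD p hp (by omega), fun hd => ?_⟩
      have := Nat.le_of_dvd (Nat.pos_of_ne_zero hN0) hd
      omega
  have hSg : ∀ p ∈ S, GoodPrime a b p → 3 ≤ p ∧
      ‖(p : ℂ) - (pointCount a b p : ℂ)‖ ≤ 1 := by
    intro p hp hg
    rw [hSe, Finset.mem_filter] at hp
    have hdN : p ∣ N := by
      rcases hp.2.2 with h | h
      · exact absurd hg h
      · exact h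
    constructor
    · have h2 := hp.2.1.two_le
      rcases Nat.lt_or_ge p 3 with h | h
      · exfalso
        have hp2 : p = 2 := by omega
        apply hg.2
        rw [hp2]
        exact Dvd.intro _ rfl
      · exact h
    · rw [← hb p hg]
      exact hf.bad p hp.2.1 hdN
  obtain ⟨P1, hP1⟩ : ∃ P1 : ℂ → ℂ, P1 = fun z => ∏ p ∈ S, Ef (ac f) N p z := ⟨_, rfl⟩
  obtain ⟨P2, hP2⟩ : ∃ P2 : ℂ → ℂ, P2 = fun z => ∏ p ∈ S,
    (if GoodPrime a b p then Df a b p z else 1) := ⟨_, rfl⟩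
  have hP1d : Differentiable ℂ P1 := by
    rw [hP1]
    intro w
    refine DifferentiableAt.fun_finsetProd fun p hp => ?_
    exact Ef_differentiable _ _ (hSp p hp) w
  have hP2d : Differentiable ℂ P2 := by
    rw [hP2]
    intro w
    refine DifferentiableAt.fun_finsetProd fun p hp => ?_
    split_ifs
    · exact Df_differentiable _ _ (hSp p hp) w
    · exact differentiableAt_const _
  refine ⟨P1, P2, hP1d, hP2d, ?_, ?_, ?_⟩
  · have hA1 : AnalyticOnNhd ℂ (fun z => F z * P2 z) Set.univ :=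
      (hF.1.mul hP2d).differentiableOn.analyticOnNhd isOpen_univ
    have hA2 : AnalyticOnNhd ℂ (fun z => Lf f z * P1 z) Set.univ :=
      ((Lf_diff f).mul hP1d).differentiableOn.analyticOnNhd isOpen_univ
    have hEq : Set.EqOn (fun z => F z * P2 z) (fun z => Lf f z * P1 z) Set.univ := by
      refine hA1.eqOn_of_preconnected_of_eventuallyEq hA2 isPreconnected_univ (z₀ := 4)
        (Set.mem_univ _) ?_
      have hV : IsOpen {z : ℂ | 3 < z.re} := isOpen_lt continuous_const Complex.continuous_re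
      have h4 : (4 : ℂ) ∈ {z : ℂ | 3 < z.re} := by
        show (3 : ℝ) < (4 : ℂ).re
        norm_num
      filter_upwards [hV.mem_nhds h4] with z hz
      have hz' : 3 < z.re := hz
      have hk := key_identity hF hf hb hz' (lsum hf (by linarith)) S hSp hSn
      have h5 : Lf f z = LSeries (ac f) z := Lf_eq_far (by linarith)
      rw [← h5] at hk
      rw [hP1, hP2]
      exact hk
    exact fun z => hEq (Set.mem_univ z)
  · rw [hP1]
    simp only
    exact Finset.prod_ne_zero_iff.2 fun p hp => Ef_one_ne hf (hSp p hp)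
  · intro z hz
    rw [hP2]
    simp only
    refine Finset.prod_ne_zero_iff.2 fun p hp => ?_
    split_ifs with hg
    · obtain ⟨h3, h1⟩ := hSg p hp hg
      have := Df_ge' (hSp p hp) h3 h1 (z := z) (by linarith)
      exact norm_pos_iff.1 (by linarith)
    · exact one_ne_zero

/-- the order of `F` at `1` is that of `Xi` at `0` -/
theorem order_eq (hΔ : 4 * a ^ 3 + 27 * b ^ 2 ≠ 0) (hF : IsLSeries a b F) (hf : Hecke f) (hb : Belongs a b f) :
    analyticOrderAt F 1 = analyticOrderAt (Xi f) 0 := by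
  obtain ⟨P1, P2, hP1d, hP2d, hid, hP1, hP2⟩ := identity hΔ hF hf hb
  have h1 : analyticOrderAt F 1 = analyticOrderAt (Lf f) 1 := by
    have e : (F * P2) = (Lf f * P1) := funext hid
    have e1 := analyticOrderAt_mul (hF.1.analyticAt 1) (hP2d.analyticAt 1)
    have e2 := analyticOrderAt_mul ((Lf_diff f).analyticAt 1) (hP1d.analyticAt 1)
    rw [(hP2d.analyticAt 1).analyticOrderAt_eq_zero.2 (hP2 1 (by simp)), add_zero] at e1
    rw [(hP1d.analyticAt 1).analyticOrderAt_eq_zero.2 hP1, add_zero] at e2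
    rw [← e1, ← e2, e]
  rw [h1]
  -- `Xi z = E z * L(1 + z)` near `0`
  obtain ⟨E, hE⟩ : ∃ E : ℂ → ℂ, E = fun z => ((√(N : ℝ) : ℝ) : ℂ) ^ (1 + z) *
    (((2 * Real.pi : ℝ) : ℂ) ^ (-(1 + z)) * Complex.Gamma (1 + z)) := ⟨_, rfl⟩
  have hsp := sqrtN_pos N
  have hspc : ((√(N : ℝ) : ℝ) : ℂ) ≠ 0 := by exact_mod_cast hsp.ne'
  have h2pi : ((2 * Real.pi : ℝ) : ℂ) ≠ 0 := by
    have := Real.pi_pos
    exact_mod_cast (by positivity : (0 : ℝ) < 2 * Real.pi).ne'
  have hopen : IsOpen {z : ℂ | -1 < z.re} := isOpen_lt continuous_const Complex.continuous_re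
  have h0 : (0 : ℂ) ∈ {z : ℂ | -1 < z.re} := by
    show (-1 : ℝ) < (0 : ℂ).re
    simp
  have hEd : DifferentiableOn ℂ E {z : ℂ | -1 < z.re} := by
    intro z hz
    have hz' : -1 < z.re := hz
    rw [hE]
    refine DifferentiableAt.differentiableWithinAt ?_
    refine DifferentiableAt.mul ?_ (DifferentiableAt.mul ?_ ?_)
    · exact DifferentiableAt.const_cpow (by fun_prop) (Or.inl hspc)
    · exact DifferentiableAt.const_cpow (by fun_prop) (Or.inl h2pi)
    · have hg : DifferentiableAt ℂ Complex.Gamma (1 + z) := by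
        apply Complex.differentiableAt_Gamma
        intro m hm
        have := congrArg Complex.re hm
        simp at this
        have h3 : (0 : ℝ) ≤ m := Nat.cast_nonneg m
        linarith
      exact hg.comp z (by fun_prop : DifferentiableAt ℂ (fun z : ℂ => 1 + z) z)
  have hEa : AnalyticAt ℂ E 0 := hEd.analyticAt (hopen.mem_nhds h0)
  have hE0 : E 0 ≠ 0 := by
    rw [hE]
    simp only
    refine mul_ne_zero ?_ (mul_ne_zero ?_ ?_)
    · rw [Complex.cpow_ne_zero_iff]; left; exact hspc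
    · rw [Complex.cpow_ne_zero_iff]; left; exact h2pi
    · rw [add_zero, Complex.Gamma_one]; exact one_ne_zero
  have hg : Differentiable ℂ fun z : ℂ => Lf f (1 + z) := (Lf_diff f).comp (by fun_prop)
  have h3 : analyticOrderAt (Xi f) 0 = analyticOrderAt (E * fun z : ℂ => Lf f (1 + z)) 0 := by
    apply analyticOrderAt_congr
    filter_upwards [hopen.mem_nhds h0] with z hz
    have hz' : -1 < z.re := hz
    rw [Pi.mul_apply, hE]
    unfold Xi
    rw [La_eq (by simp; linarith)]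
    ring
  rw [h3, analyticOrderAt_mul hEa (hg.analyticAt 0), hEa.analyticOrderAt_eq_zero.2 hE0, zero_add]
  -- translation
  have hne : ∃ u, Lf f u ≠ 0 := ⟨4, Lf_ne hf (by norm_num)⟩
  obtain ⟨h, hh, hh1, hLh⟩ := Pool.Agent.W186.LH.single (Lf_diff f) hne 1
  obtain ⟨n, hn⟩ : ∃ n : ℕ, n = analyticOrderNatAt (Lf f) 1 := ⟨_, rfl⟩
  rw [← hn] at hLh
  have h4 : analyticOrderAt (Lf f) 1 = n := by
    rw [((Lf_diff f).analyticAt 1).analyticOrderAt_eq_natCast]
    exact ⟨h, hh.analyticAt 1, hh1, Eventually.of_forall fun u => by rw [hLh, smul_eq_mul]⟩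
  have h5 : analyticOrderAt (fun z : ℂ => Lf f (1 + z)) 0 = n := by
    rw [(hg.analyticAt 0).analyticOrderAt_eq_natCast]
    refine ⟨fun z => h (1 + z), (hh.comp (by fun_prop : Differentiable ℂ fun z : ℂ => 1 + z)).analyticAt 0, by simpa using hh1,
      Eventually.of_forall fun u => ?_⟩
    simp only
    rw [hLh, smul_eq_mul, add_sub_cancel_left, sub_zero]
  rw [h4, h5]

/-- **The bound for the order, one abscissa.** -/
theorem bound_one {θ ε : ℝ} (hθ0 : 0 ≤ θ) (hθ : θ ≤ 1 / 2) (hε : 0 < ε) : ∃ C : ℝ, 0 < C ∧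
    ∀ (a b : ℤ), 4 * a ^ 3 + 27 * b ^ 2 ≠ 0 → ∀ F : ℂ → ℂ, IsLSeries a b F → ∀ (N : ℕ) [NeZero N]
    (f : CuspForm (Gamma0 N : Subgroup (GL (Fin 2) ℝ)) 2), Hecke f → Fricke f → Belongs a b f →
    (∀ s : ℂ, 1 + θ < s.re → Lf f s ≠ 0) →
    ∃ m : ℕ, analyticOrderAt F 1 = m ∧ (m : ℝ) ≤ (θ / Real.pi + ε) * Real.log N + C := by
  obtain ⟨δ, hδ⟩ : ∃ δ : ℝ, δ = min (1 / 8) ε := ⟨_, rfl⟩
  have hδ0 : 0 < δ := by rw [hδ]; positivity
  have hδ1 : δ ≤ 1 / 8 := by rw [hδ]; exact min_le_left _ _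
  have hδε : δ ≤ ε := by rw [hδ]; exact min_le_right _ _
  obtain ⟨K, hK0, hK⟩ := Lf_near (η := 2 * δ) (by positivity)
  obtain ⟨C, lam, hC, hlam0, hlam1, hcore⟩ := core hθ0 hθ hδ0 hδ1 hK0
  -- `C (1 + x)^lam ≤ (ε / 10) x + C'`
  obtain ⟨C', hC'0, hC'⟩ : ∃ C' : ℝ, 0 < C' ∧ ∀ x : ℝ, 0 ≤ x → C * (1 + x) ^ lam ≤ ε / 10 * x + C' := by
    have hlim : Tendsto (fun y : ℝ => C * y ^ (lam - 1)) atTop (𝓝 (C * 0)) := by
      refine Tendsto.const_mul _ ?_
      have := tendsto_rpow_neg_atTop (y := 1 - lam) (by linarith)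
      refine this.congr fun y => ?_
      congr 1
      ring
    rw [mul_zero] at hlim
    obtain ⟨Y, hY⟩ := ((hlim.eventually (gt_mem_nhds (by positivity : (0 : ℝ) < ε / 10))).and
      (eventually_ge_atTop 1)).exists_forall_of_atTop
    obtain ⟨Z, hZ⟩ : ∃ Z : ℝ, Z = max Y 1 := ⟨_, rfl⟩
    have hZ1 : 1 ≤ Z := by rw [hZ]; exact le_max_right _ _
    refine ⟨C * Z ^ lam + ε / 10, by positivity, fun x hx => ?_⟩
    rcases le_total (1 + x) Z with h | h
    · have h1 : (1 + x) ^ lam ≤ Z ^ lam := Real.rpow_le_rpow (by linarith) h hlam0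
      have h2 : C * (1 + x) ^ lam ≤ C * Z ^ lam := by gcongr
      have h3 : 0 ≤ ε / 10 * x := by positivity
      linarith
    · have hy : Y ≤ 1 + x := le_trans (by rw [hZ]; exact le_max_left _ _) h
      have h1 := (hY (1 + x) hy).1
      have h2 : C * (1 + x) ^ lam = C * (1 + x) ^ (lam - 1) * (1 + x) := by
        rw [mul_assoc, ← Real.rpow_add_one (by linarith)]
        congr 2
        ring
      rw [h2]
      have h3 : C * (1 + x) ^ (lam - 1) * (1 + x) ≤ ε / 10 * (1 + x) := by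
        apply mul_le_mul_of_nonneg_right h1.le (by linarith)
      have h4 : 0 < C * Z ^ lam := by positivity
      linarith
  refine ⟨C', hC'0, ?_⟩
  intro a b hΔ F hF N _ f hf hfr hb hne
  have hD := dat (θ := θ) (δ := δ) (K := K) hf hfr (hK N f hf) hne
  obtain ⟨m, hm⟩ := order_finite hF
  refine ⟨m, hm, ?_⟩
  have hord := order_eq hΔ hF hf hb
  rw [hm] at hord
  have hnat : analyticOrderNatAt (Xi f) 0 = m := by
    unfold analyticOrderNatAt
    rw [← hord]
    rfl
  have hne' : ∃ u, Xi f u ≠ 0 := by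
    by_contra hcon
    push Not at hcon
    have : analyticOrderAt (Xi f) 0 = ⊤ := by
      rw [analyticOrderAt_eq_top]
      exact Eventually.of_forall hcon
    rw [this] at hord
    exact absurd hord (by simp)
  obtain ⟨h, hh, -, hXh⟩ := Pool.Agent.W186.LH.single (Xi_diff f) hne' 0
  rw [hnat] at hXh
  have h1 := hcore N _ _ hD m h hh (fun z => by rw [hXh, sub_zero])
  have hN1 : (1 : ℝ) ≤ N := by exact_mod_cast Nat.one_le_iff_ne_zero.2 (NeZero.ne N)
  have hlN : 0 ≤ Real.log N := Real.log_nonneg hN1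
  have h2 := hC' (Real.log N) hlN
  have h3 : (θ + 2 * δ) / Real.pi ≤ θ / Real.pi + 2 / 3 * ε := by
    rw [add_div]
    have h4 : 2 * δ / Real.pi ≤ 2 / 3 * ε := by
      rw [div_le_iff₀ Real.pi_pos]
      have := Real.pi_gt_three
      nlinarith
    linarith
  have h5 : (θ + 2 * δ) / Real.pi * Real.log N ≤ (θ / Real.pi + 2 / 3 * ε) * Real.log N := by gcongr
  nlinarith

end Pool.Agent.H572.OB
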