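import Pool.Agent.H572.OB.Core
import Pool.Graph.R_seed8.TH270.MS.GrowthF
import Pool.Graph.R_seed8.W186.LH.Fac

/-!
# The L-function of a newform with rational coefficients: the data of the analytic core
-/

set_option autoImplicit false

open Filter Topology Set Complex
open CongruenceSubgroup
open scoped MatrixGroups
open Pool.Agent.TH941 (Hecke Belongs)
open Pool.Agent.W165.RS (ac ac_zero)
open Pool.Agent.W263.BSD (IsLSeries GoodPrime pointCount good_of_large)
open Pool.Agent.TH942.RZ Pool.Agent.TH942.RZ.Growth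
open Pool.Agent.TH270.MS.EQ (Df_ge')

namespace Pool.Agent.H572.OB

variable {a b : ℤ} {F : ℂ → ℂ} {N : ℕ} [NeZero N] {f : CuspForm (Gamma0 N : Subgroup (GL (Fin 2) ℝ)) 2}

/-- the entire function `L(f, s)` -/
noncomputable def Lf (f : CuspForm (Gamma0 N : Subgroup (GL (Fin 2) ℝ)) 2) : ℂ → ℂ :=
  ModularForm.L (k := 2) (by norm_num) f

/-- the Mellin transform of `f` on the imaginary axis -/
noncomputable def La (f : CuspForm (Gamma0 N : Subgroup (GL (Fin 2) ℝ)) 2) : ℂ → ℂ :=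
  ModularForm.Λ (k := 2) (by norm_num) f

lemma Lf_diff (f : CuspForm (Gamma0 N : Subgroup (GL (Fin 2) ℝ)) 2) : Differentiable ℂ (Lf f) :=
  CuspForm.differentiable_L (by norm_num) f

lemma La_diff (f : CuspForm (Gamma0 N : Subgroup (GL (Fin 2) ℝ)) 2) : Differentiable ℂ (La f) :=
  CuspForm.differentiable_Λ (by norm_num) f

lemma La_eq_mellin (f : CuspForm (Gamma0 N : Subgroup (GL (Fin 2) ℝ)) 2) :
    La f = mellin (fun t : ℝ => f (UpperHalfPlane.ofComplex (I * t))) :=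
  CuspForm.Λ_eq_mellin (by norm_num) f

lemma La_eq {s : ℂ} (hs : 0 < s.re) :
    La f s = ((2 * Real.pi : ℝ) : ℂ) ^ (-s) * Complex.Gamma s * Lf f s := by
  unfold Lf ModularForm.L La
  rw [Complex.Gammaℂ]
  have h1 : Complex.Gamma s ≠ 0 := Complex.Gamma_ne_zero_of_re_pos hs
  have h2 : ((2 * Real.pi : ℝ) : ℂ) ^ (-s) ≠ 0 := by
    rw [Complex.cpow_ne_zero_iff]
    left
    have := Real.pi_pos
    exact_mod_cast (by positivity : (0 : ℝ) < 2 * Real.pi).ne'
  have e : ((2 * Real.pi : ℝ) : ℂ) = 2 * (Real.pi : ℂ) := by push_cast; ring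
  rw [e] at h2 ⊢
  field_simp

/-- `|c(n)| ≤ d(n) √n` -/
lemma coef_le (hf : Hecke f) (n : ℕ) : ‖ac f n‖ ≤ (n.divisors.card : ℝ) * √n := by
  induction n using Nat.recOnPosPrimePosCoprime with
  | zero => simp [ac_zero]
  | one => simp [hf.one]
  | prime_pow p k hp hk =>
    have hcard : (p ^ k).divisors.card = k + 1 := by
      rw [Nat.divisors_prime_pow hp, Finset.card_map, Finset.card_range]
    rw [hcard]
    have hsq : √((p ^ k : ℕ) : ℝ) = √p ^ k := by
      push_cast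
      rw [Real.sqrt_eq_iff_mul_self_eq (by positivity) (by positivity), ← mul_pow,
        Real.mul_self_sqrt (by positivity)]
    rw [hsq]
    push_cast
    by_cases hN : p ∣ N
    · refine (hf.prime_pow_bad hp hN k).trans ?_
      have h1 : (1 : ℝ) ≤ √p ^ k := one_le_pow₀ (Real.one_le_sqrt.2 (by exact_mod_cast hp.one_le))
      have h2 : (0 : ℝ) ≤ k := Nat.cast_nonneg k
      nlinarith
    · exact hf.prime_pow hp hN k
  | coprime m n hm hn hmn h1 h2 =>
    rw [hf.mul m n hmn, norm_mul, Nat.Coprime.card_divisors_mul hmn]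
    push_cast
    rw [Real.sqrt_mul (Nat.cast_nonneg m)]
    calc ‖ac f m‖ * ‖ac f n‖ ≤ ((m.divisors.card : ℝ) * √m) * ((n.divisors.card : ℝ) * √n) :=
          mul_le_mul h1 h2 (norm_nonneg _) (by positivity)
      _ = _ := by ring

/-- `∑ d(n) n^{-1-η}` converges -/
lemma div_summable {η : ℝ} (hη : 0 < η) : Summable fun n : ℕ => (n.divisors.card : ℝ) * (n : ℝ) ^ (-(1 + η)) := by
  have h1 : LSeriesSummable (fun n => ((ArithmeticFunction.zeta : ArithmeticFunction ℂ) n)) ((1 + η : ℝ) : ℂ) := by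
    have h0 : 1 < ((1 + η : ℝ) : ℂ).re := by simp [hη]
    have := ArithmeticFunction.LSeriesSummable_zeta_iff.2 h0
    simpa [ArithmeticFunction.natCoe_apply] using this
  have h2 := (ArithmeticFunction.LSeriesSummable_mul h1 h1).norm
  refine h2.congr fun n => ?_
  rcases Nat.eq_zero_or_pos n with h0 | h0
  · subst h0
    simp
  · rw [LSeries.term_of_ne_zero h0.ne', norm_div, Complex.norm_natCast_cpow_of_pos h0, Complex.ofReal_re,
      Real.rpow_neg (Nat.cast_nonneg n), ArithmeticFunction.mul_apply, div_eq_mul_inv]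
    congr 1
    have : ∀ x ∈ n.divisorsAntidiagonal, ((ArithmeticFunction.zeta : ArithmeticFunction ℂ) x.1) *
        ((ArithmeticFunction.zeta : ArithmeticFunction ℂ) x.2) = 1 := by
      intro x hx
      have hx' := Nat.mem_divisorsAntidiagonal.1 hx
      have h3 : x.1 ≠ 0 := by rintro h; rw [h] at hx'; simp at hx'; omega
      have h4 : x.2 ≠ 0 := by rintro h; rw [h] at hx'; simp at hx'; omega
      simp [ArithmeticFunction.natCoe_apply, ArithmeticFunction.zeta_apply, h3, h4]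
    rw [Finset.sum_congr rfl this]
    simp [← Nat.map_div_right_divisors]

lemma term_le (hf : Hecke f) {s : ℂ} {η : ℝ} (hs : 3 / 2 + η ≤ s.re) (n : ℕ) :
    ‖LSeries.term (ac f) s n‖ ≤ (n.divisors.card : ℝ) * (n : ℝ) ^ (-(1 + η)) := by
  rcases Nat.eq_zero_or_pos n with h0 | h0
  · subst h0
    simp
  · have hn1 : (1 : ℝ) ≤ n := by exact_mod_cast h0
    have hn0 : (0 : ℝ) < n := by linarith
    rw [LSeries.term_of_ne_zero h0.ne', norm_div, Complex.norm_natCast_cpow_of_pos h0]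
    have h1 := coef_le hf n
    rw [div_le_iff₀ (Real.rpow_pos_of_pos hn0 _)]
    refine h1.trans ?_
    rw [mul_assoc, ← Real.rpow_add hn0]
    gcongr
    rw [Real.sqrt_eq_rpow]
    exact Real.rpow_le_rpow_of_exponent_le hn1 (by linarith)

lemma lsum (hf : Hecke f) {s : ℂ} (hs : 3 / 2 < s.re) : LSeriesSummable (ac f) s := by
  have hη : 0 < s.re - 3 / 2 := by linarith
  exact Summable.of_norm_bounded (div_summable hη) (term_le hf (by linarith))

lemma Lf_eq_far {s : ℂ} (hs : 2 < s.re) : Lf f s = LSeries (ac f) s := by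
  have hw : Subgroup.strictWidthInfty (Gamma0 N : Subgroup (GL (Fin 2) ℝ)) = 1 :=
    CongruenceSubgroup.strictWidthInfty_Gamma0 N
  have h := CuspForm.hasSum_L (k := 2) (by norm_num) f (s := s) (by norm_num; exact hs)
  rw [hw] at h
  have h' : HasSum (fun n : ℕ => (UpperHalfPlane.qExpansion 1 f).coeff n / (n : ℂ) ^ s) (Lf f s) := by
    simpa [Lf] using h
  rw [← h'.tsum_eq, LSeries]
  refine tsum_congr fun n => ?_
  rcases Nat.eq_zero_or_pos n with h0 | h0
  · subst h0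
    have hs0 : s ≠ 0 := by
      intro h
      rw [h] at hs
      norm_num at hs
    simp [Complex.zero_cpow hs0]
  · rw [LSeries.term_of_ne_zero h0.ne']
    rfl

lemma Lf_eq (hf : Hecke f) {s : ℂ} (hs : 3 / 2 < s.re) : Lf f s = LSeries (ac f) s := by
  have habs : LSeries.abscissaOfAbsConv (ac f) ≤ ((3 / 2 : ℝ) : EReal) :=
    LSeries.abscissaOfAbsConv_le_of_forall_lt_LSeriesSummable fun y hy => lsum hf (by simpa using hy)
  have h1 : AnalyticOnNhd ℂ (LSeries (ac f)) {s : ℂ | 3 / 2 < s.re} := by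
    refine (LSeries_analyticOnNhd (ac f)).mono fun z hz => ?_
    refine lt_of_le_of_lt habs ?_
    exact_mod_cast hz
  have h2 : AnalyticOnNhd ℂ (Lf f) {s : ℂ | 3 / 2 < s.re} := fun z _ => (Lf_diff f).analyticAt z
  have h3 : (4 : ℂ) ∈ {s : ℂ | 3 / 2 < s.re} := by
    show (3 / 2 : ℝ) < (4 : ℂ).re
    norm_num
  refine h2.eqOn_of_preconnected_of_eventuallyEq h1 (convex_halfSpace_re_gt _).isPreconnected h3 ?_ hs
  have hV : IsOpen {z : ℂ | 2 < z.re} := isOpen_lt continuous_const Complex.continuous_re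
  have h4 : (4 : ℂ) ∈ {z : ℂ | 2 < z.re} := by
    show (2 : ℝ) < (4 : ℂ).re
    norm_num
  filter_upwards [hV.mem_nhds h4] with z hz
  exact Lf_eq_far hz

/-- the L-function has no zeros in the half plane of absolute convergence -/
lemma Lf_ne (hf : Hecke f) {s : ℂ} (hs : 3 / 2 < s.re) : Lf f s ≠ 0 := by
  classical
  rw [Lf_eq hf hs]
  have hsum := lsum hf hs
  have he := euler hf hsum
  have hEs : Summable fun p : ℕ => (Set.mulIndicator {p | Nat.Prime p} (fun p => Ef (ac f) N p s) p - 1) := by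
    have hη : 0 < s.re - 3 / 2 := by linarith
    have hz : Summable fun n : ℕ => (n : ℝ) ^ (-2 : ℝ) := Real.summable_nat_rpow.2 (by norm_num)
    refine Summable.of_norm_bounded (hsum.norm.add hz) fun p => ?_
    by_cases hp : p.Prime
    · rw [Set.mulIndicator_of_mem (show p ∈ {p | Nat.Prime p} from hp)]
      unfold Ef
      have e1 : 1 - ac f p * (p : ℂ) ^ (-s) + (if p ∣ N then 0 else (p : ℂ) ^ (1 - 2 * s)) - 1 =
          -(ac f p * (p : ℂ) ^ (-s)) + (if p ∣ N then 0 else (p : ℂ) ^ (1 - 2 * s)) := by ring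
      rw [e1]
      refine (norm_add_le _ _).trans (add_le_add ?_ ?_)
      · rw [norm_neg, LSeries.term_of_ne_zero hp.ne_zero, Complex.cpow_neg, div_eq_mul_inv]
      · have h3 : ‖(p : ℂ) ^ (1 - 2 * s)‖ ≤ (p : ℝ) ^ (-2 : ℝ) := by
          rw [Complex.norm_natCast_cpow_of_pos hp.pos]
          refine Real.rpow_le_rpow_of_exponent_le (by exact_mod_cast hp.one_le) ?_
          simp
          linarith
        split_ifs
        · rw [norm_zero]; positivity
        · exact h3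
    · rw [Set.mulIndicator_of_notMem (show p ∉ {p | Nat.Prime p} from hp), sub_self, norm_zero]
      positivity
  have hmul : Multipliable fun p : ℕ => (Set.mulIndicator {p | Nat.Prime p} (fun p => Ef (ac f) N p s) p) := by
    have := multipliable_one_add_of_summable hEs.norm
    refine this.congr fun p => ?_
    ring
  have hprod := he.mul hmul.hasProd
  have hone : HasProd (fun _ : ℕ => (1 : ℂ)) (LSeries (ac f) s *
      ∏' p : ℕ, (Set.mulIndicator {p | Nat.Prime p} (fun p => Ef (ac f) N p s) p)) := by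
    convert hprod using 1
    funext p
    by_cases hp : p.Prime
    · rw [Set.mulIndicator_of_mem (show p ∈ {p | Nat.Prime p} from hp),
        Set.mulIndicator_of_mem (show p ∈ {p | Nat.Prime p} from hp), local_factor hf hp hsum]
    · rw [Set.mulIndicator_of_notMem (show p ∉ {p | Nat.Prime p} from hp),
        Set.mulIndicator_of_notMem (show p ∉ {p | Nat.Prime p} from hp), one_mul]
  have h1 := hone.unique hasProd_one
  intro h0
  rw [h0, zero_mul] at h1
  exact zero_ne_one h1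

/-- bound in the half plane of absolute convergence -/
lemma Lf_near {η : ℝ} (hη : 0 < η) : ∃ K : ℝ, 0 < K ∧ ∀ (N : ℕ) [NeZero N]
    (f : CuspForm (Gamma0 N : Subgroup (GL (Fin 2) ℝ)) 2), Hecke f → ∀ s : ℂ, 3 / 2 + η ≤ s.re →
    ‖Lf f s‖ ≤ Real.exp K := by
  obtain ⟨S, hS⟩ : ∃ S : ℝ, S = ∑' n : ℕ, (n.divisors.card : ℝ) * (n : ℝ) ^ (-(1 + η)) := ⟨_, rfl⟩
  have hS0 : 0 ≤ S := by rw [hS]; exact tsum_nonneg fun n => by positivity
  refine ⟨1 + S, by linarith, fun N _ f hf s hs => ?_⟩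
  rw [Lf_eq hf (by linarith), LSeries]
  refine (tsum_of_norm_bounded (div_summable hη).hasSum (term_le hf hs)).trans ?_
  rw [← hS]
  linarith [Real.add_one_le_exp (1 + S)]

lemma Lf_far (hf : Hecke f) {s : ℂ} (hs : 4 ≤ s.re) : ‖Lf f s - 1‖ ≤ 1 / 2 := by
  rw [Lf_eq hf (by linarith), LSeries]
  have hsum := lsum hf (s := s) (by linarith)
  have h1 : ∑' n : ℕ, LSeries.term (ac f) s n - 1 = ∑' n : ℕ, (LSeries.term (ac f) s n - if n = 1 then 1 else 0) := by
    rw [hsum.tsum_sub (hasSum_ite_eq 1 (1 : ℂ)).summable, tsum_ite_eq]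
  rw [h1]
  have h2 : HasSum (fun n : ℕ => ((1 / √2 : ℝ)) * (1 / (n : ℝ) ^ 2 - if n = 1 then 1 else 0))
      ((1 / √2) * (Real.pi ^ 2 / 6 - 1)) := by
    refine HasSum.mul_left _ (hasSum_zeta_two.sub ?_)
    exact hasSum_ite_eq 1 1
  refine (tsum_of_norm_bounded h2 fun n => ?_).trans ?_
  · rcases Nat.eq_zero_or_pos n with h0 | h0
    · subst h0
      simp
    rcases Nat.lt_or_ge n 2 with h2 | h2
    · have : n = 1 := by omega
      subst this
      simp [LSeries.term_of_ne_zero, hf.one]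
    · have hn1 : n ≠ 1 := by omega
      rw [if_neg hn1, if_neg hn1, sub_zero, sub_zero]
      have hn2 : (2 : ℝ) ≤ n := by exact_mod_cast h2
      have hn0 : (0 : ℝ) < n := by linarith
      have h3 := term_le hf (s := s) (η := 5 / 2) (by linarith) n
      refine h3.trans ?_
      have h4 : (n.divisors.card : ℝ) ≤ n := by exact_mod_cast Nat.card_divisors_le_self n
      calc (n.divisors.card : ℝ) * (n : ℝ) ^ (-(1 + 5 / 2 : ℝ)) ≤ n * (n : ℝ) ^ (-(1 + 5 / 2 : ℝ)) := by gcongr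
        _ = (n : ℝ) ^ (-(1 / 2) : ℝ) * (n : ℝ) ^ (-2 : ℝ) := by
            rw [← Real.rpow_add hn0, ← Real.rpow_one_add' hn0.le (by norm_num)]
            norm_num
        _ ≤ (1 / √2) * (1 / (n : ℝ) ^ 2) := by
            have e1 : (n : ℝ) ^ (-2 : ℝ) = 1 / (n : ℝ) ^ 2 := by
              rw [Real.rpow_neg hn0.le, one_div]
              norm_cast
            have e2 : (n : ℝ) ^ (-(1 / 2) : ℝ) ≤ 1 / √2 := by
              rw [Real.rpow_neg hn0.le, ← Real.sqrt_eq_rpow, one_div]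
              exact inv_anti₀ (by positivity) (Real.sqrt_le_sqrt hn2)
            rw [e1]
            gcongr
  · have h3 : Real.pi ^ 2 ≤ 9.87 := by
      have := Real.pi_lt_d4
      have h0 := Real.pi_pos
      nlinarith
    have h4 : (1.41 : ℝ) ≤ √2 := Real.le_sqrt_of_sq_le (by norm_num)
    have h5 : 1 / √2 ≤ 1 / 1.41 := by gcongr
    have h6 : Real.pi ^ 2 / 6 - 1 ≤ 0.645 := by linarith
    have h7 : 0 ≤ Real.pi ^ 2 / 6 - 1 := by nlinarith [Real.pi_gt_three]
    calc 1 / √2 * (Real.pi ^ 2 / 6 - 1) ≤ 1 / 1.41 * 0.645 := by gcongr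
      _ ≤ 1 / 2 := by norm_num

/-- `f(i/(N y)) = w N y² f(i y)` with a sign `w` -/
def Fricke {N : ℕ} (f : CuspForm (Gamma0 N : Subgroup (GL (Fin 2) ℝ)) 2) : Prop :=
  ∃ w : ℂ, (w = 1 ∨ w = -1) ∧ ∀ y : ℝ, 0 < y →
    f (UpperHalfPlane.ofComplex (I * ((1 / (N * y) : ℝ) : ℂ))) = w * N * y ^ 2 *
      f (UpperHalfPlane.ofComplex (I * (y : ℂ)))

/-- the functional equation -/
lemma La_fe {w : ℂ} (hw : ∀ y : ℝ, 0 < y →
    f (UpperHalfPlane.ofComplex (I * ((1 / (N * y) : ℝ) : ℂ))) = w * N * y ^ 2 *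
      f (UpperHalfPlane.ofComplex (I * (y : ℂ)))) (s : ℂ) : La f (2 - s) = w * (N : ℂ) ^ (s - 1) * La f s := by
  have hN0 : (0 : ℝ) < N := by exact_mod_cast Nat.pos_of_ne_zero (NeZero.ne N)
  have hNc : (N : ℂ) ≠ 0 := by exact_mod_cast (NeZero.ne N)
  rw [La_eq_mellin]
  obtain ⟨φ, hφ⟩ : ∃ φ : ℝ → ℂ, φ = fun t : ℝ => f (UpperHalfPlane.ofComplex (I * t)) := ⟨_, rfl⟩
  rw [← hφ]
  have h1 := mellin_comp_inv (fun t => φ ((N : ℝ)⁻¹ * t)) (-(s - 2))
  have h2 := mellin_comp_mul_left φ (2 - s) (a := (N : ℝ)⁻¹) (by positivity)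
  have h3 : mellin (fun t => φ ((N : ℝ)⁻¹ * t⁻¹)) (s - 2) = mellin (fun t => φ ((N : ℝ)⁻¹ * t)) (2 - s) := by
    have := mellin_comp_inv (fun t => φ ((N : ℝ)⁻¹ * t)) (s - 2)
    rw [this]
    congr 1
    ring
  have h4 : mellin (fun t => φ ((N : ℝ)⁻¹ * t⁻¹)) (s - 2) = w * N * mellin φ s := by
    have h5 : mellin (fun t => φ ((N : ℝ)⁻¹ * t⁻¹)) (s - 2) =
        mellin (fun t : ℝ => (t : ℂ) ^ (2 : ℂ) • ((w * N) • φ t)) (s - 2) := by
      unfold mellin
      refine MeasureTheory.setIntegral_congr_fun measurableSet_Ioi fun t ht => ?_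
      have ht0 : (0 : ℝ) < t := ht
      have h6 := hw t ht0
      have e1 : φ ((N : ℝ)⁻¹ * t⁻¹) = w * N * t ^ 2 * φ t := by
        rw [hφ]
        simp only
        rw [← h6]
        congr 3
        rw [one_div, mul_inv]
      have e2 : (t : ℂ) ^ (2 : ℂ) = (t : ℂ) ^ 2 := by
        rw [show (2 : ℂ) = ((2 : ℕ) : ℂ) by norm_num, Complex.cpow_natCast]
      simp only [smul_eq_mul]
      rw [e1, e2]
      ring
    rw [h5, mellin_cpow_smul, mellin_const_smul, smul_eq_mul]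
    congr 2
    ring
  rw [h3, h2] at h4
  have e3 : (((N : ℝ)⁻¹ : ℝ) : ℂ) ^ (-(2 - s)) = (N : ℂ) ^ (2 - s) := by
    rw [Complex.ofReal_inv, Complex.ofReal_natCast, Complex.inv_cpow _ _ (by
      rw [Complex.natCast_arg]; exact Real.pi_pos.ne), Complex.cpow_neg, inv_inv]
  rw [e3, smul_eq_mul] at h4
  have e4 : (N : ℂ) ^ (s - 1) * (N : ℂ) ^ (2 - s) = N := by
    rw [← Complex.cpow_add _ _ hNc]
    have : s - 1 + (2 - s) = 1 := by ring
    rw [this, Complex.cpow_one]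
  have e5 : (N : ℂ) ^ (2 - s) ≠ 0 := by
    rw [Complex.cpow_ne_zero_iff]
    left
    exact hNc
  apply mul_left_cancel₀ e5
  rw [h4]
  calc w * N * mellin φ s = w * ((N : ℂ) ^ (s - 1) * (N : ℂ) ^ (2 - s)) * mellin φ s := by rw [e4]
    _ = _ := by ring

/-- the completed function, centred at `0` -/
noncomputable def Xi (f : CuspForm (Gamma0 N : Subgroup (GL (Fin 2) ℝ)) 2) (z : ℂ) : ℂ :=
  ((√(N : ℝ) : ℝ) : ℂ) ^ (1 + z) * La f (1 + z)

lemma sqrtN_pos (N : ℕ) [NeZero N] : 0 < √(N : ℝ) := by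
  have : (0 : ℝ) < N := by exact_mod_cast Nat.pos_of_ne_zero (NeZero.ne N)
  positivity

lemma Xi_diff (f : CuspForm (Gamma0 N : Subgroup (GL (Fin 2) ℝ)) 2) : Differentiable ℂ (Xi f) := by
  intro z
  unfold Xi
  refine DifferentiableAt.mul ?_ ?_
  · refine DifferentiableAt.const_cpow (by fun_prop) (Or.inl ?_)
    exact_mod_cast (sqrtN_pos N).ne'
  · exact (La_diff f).differentiableAt.comp z (by fun_prop : DifferentiableAt ℂ (fun z : ℂ => 1 + z) z)

lemma Xi_sym (hfr : Fricke f) (z : ℂ) : ‖Xi f (-z)‖ = ‖Xi f z‖ := by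
  obtain ⟨w, hw1, hw⟩ := hfr
  have h := La_fe hw (1 + z)
  have hsp := sqrtN_pos N
  have hN0 : (0 : ℝ) < N := by exact_mod_cast Nat.pos_of_ne_zero (NeZero.ne N)
  have e1 : (2 : ℂ) - (1 + z) = 1 + -z := by ring
  rw [e1] at h
  unfold Xi
  rw [h, norm_mul, norm_mul, norm_mul, norm_mul, Complex.norm_cpow_eq_rpow_re_of_pos hsp,
    Complex.norm_cpow_eq_rpow_re_of_pos hsp]
  have e2 : ‖(N : ℂ) ^ (1 + z - 1)‖ = √(N : ℝ) ^ (2 * z.re) := by
    have : (1 + z - 1 : ℂ) = z := by ring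
    rw [this, Complex.norm_natCast_cpow_of_pos (Nat.pos_of_ne_zero (NeZero.ne N)), Real.rpow_mul hsp.le]
    norm_num
  have e3 : ‖w‖ = 1 := by
    rcases hw1 with h1 | h1 <;> rw [h1] <;> simp
  rw [e2, e3, one_mul]
  have e4 : √(N : ℝ) ^ (1 + -z).re * (√(N : ℝ) ^ (2 * z.re) * ‖La f (1 + z)‖) =
      (√(N : ℝ) ^ (1 + -z).re * √(N : ℝ) ^ (2 * z.re)) * ‖La f (1 + z)‖ := by ring
  rw [e4, ← Real.rpow_add hsp]
  congr 2
  simp
  ring

lemma Xi_bdd (f : CuspForm (Gamma0 N : Subgroup (GL (Fin 2) ℝ)) 2) (R : ℝ) :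
    ∃ M : ℝ, ∀ z : ℂ, |z.re| ≤ R → ‖Xi f z‖ ≤ M := by
  obtain ⟨C, hC0, hC⟩ := Pool.Agent.TH270.MS.GrowL.mellin_strip
      (fun t : ℝ => f (UpperHalfPlane.ofComplex (I * t)))
      (fun s => ((CuspForm.isStrongFEPair (k := 2) (by norm_num) f).hasMellin s).1) (1 - R) (1 + R)
  have hsp := sqrtN_pos N
  have hN1 : (1 : ℝ) ≤ N := by exact_mod_cast Nat.one_le_iff_ne_zero.2 (NeZero.ne N)
  have hs1 : 1 ≤ √(N : ℝ) := Real.one_le_sqrt.2 hN1
  refine ⟨√(N : ℝ) ^ (1 + R) * C, fun z hz => ?_⟩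
  have h1 := abs_le.1 hz
  unfold Xi
  rw [norm_mul, Complex.norm_cpow_eq_rpow_re_of_pos hsp]
  have h2 : ‖La f (1 + z)‖ ≤ C := by
    rw [La_eq_mellin]
    exact hC _ (by simp; linarith) (by simp; linarith)
  refine mul_le_mul ?_ h2 (norm_nonneg _) (by positivity)
  refine Real.rpow_le_rpow_of_exponent_le hs1 ?_
  simp
  linarith

/-- the data of the analytic core -/
theorem dat {θ δ K : ℝ} (hf : Hecke f) (hfr : Fricke f)
    (hK : ∀ s : ℂ, 3 / 2 + 2 * δ ≤ s.re → ‖Lf f s‖ ≤ Real.exp K)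
    (hne : ∀ s : ℂ, 1 + θ < s.re → Lf f s ≠ 0) : Dat θ δ K N (fun z => Lf f (1 + z)) (Xi f) where
  N1 := by exact_mod_cast Nat.one_le_iff_ne_zero.2 (NeZero.ne N)
  gd := (Lf_diff f).comp (by fun_prop)
  Ld := Xi_diff f
  eq := by
    intro z hz
    have hsp := sqrtN_pos N
    unfold Xi
    rw [La_eq (by simp; linarith)]
    have e1 : ((√(N : ℝ) / (2 * Real.pi) : ℝ) : ℂ) ^ (1 + z) =
        ((√(N : ℝ) : ℝ) : ℂ) ^ (1 + z) * ((2 * Real.pi : ℝ) : ℂ) ^ (-(1 + z)) := by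
      rw [Complex.cpow_neg, ← div_eq_mul_inv, Complex.ofReal_div,
        Complex.div_cpow_ofReal_nonneg hsp.le (by positivity)]
    rw [e1]
    ring
  sym := Xi_sym hfr
  bdd := Xi_bdd f
  near := fun z hz => hK _ (by simp; linarith)
  far := fun z hz => Lf_far hf (by simp; linarith)
  ne := fun z hz => hne _ (by simp; linarith)

end Pool.Agent.H572.OB
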