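import Mathlib
import Pool.Graph.R_seed8.Y155.QT14a
import Pool.Graph.R_seed8.Y155.QT14b

/-!
# A uniform bound for the rank of the curves with given two-division field
-/

set_option autoImplicit false

open WeierstrassCurve IsDedekindDomain NumberField

namespace Pool.Agent.H572.OB

open Pool.Agent.H437R2.Man.MW Pool.Agent.Y155.QT14

/-- the curve `y² = x³ + a x + b` -/
abbrev ECc (a b : ℤ) : WeierstrassCurve ℚ :=
  { a₁ := 0, a₂ := 0, a₃ := 0, a₄ := (a : ℚ), a₆ := (b : ℚ) }

/-- transport along an equality of curves -/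
lemma finrank_of_eq' {K : Type} [Field K] [DecidableEq K] {W W' : WeierstrassCurve.Affine K}
    (h : W = W') : Module.finrank ℤ W.Point = Module.finrank ℤ W'.Point := by
  subst h
  rfl

/-- transport along an equality of curves -/
lemma fg_of_eq' {K : Type} [Field K] [DecidableEq K] {W W' : WeierstrassCurve.Affine K}
    (h : W = W') (hW : AddGroup.FG W.Point) : AddGroup.FG W'.Point := by
  subst h
  exact hW

/-- the rank of a subgroup of a finitely generated abelian group -/
lemma finrank_le_of_inj' {A B : Type} [AddCommGroup A] [AddCommGroup B] (f : A →+ B)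
    (hf : Function.Injective f) (hB : AddGroup.FG B) :
    Module.finrank ℤ A ≤ Module.finrank ℤ B := by
  rw [← Module.Finite.iff_addGroup_fg] at hB
  exact LinearMap.finrank_le_finrank_of_injective (f := f.toIntLinearMap) hf

/-- a root of a monic cubic with integral coefficients is integral -/
lemma val_le_one {K : Type} [Field K] [NumberField K] {a b : ℤ} {x : K} (h : x ^ 3 + a * x + b = 0)
    (v : HeightOneSpectrum (𝓞 K)) : v.valuation K x ≤ 1 := by
  have hint : IsIntegral ℤ x := by
    refine ⟨Polynomial.X ^ 3 + Polynomial.C a * Polynomial.X + Polynomial.C b, ?_, ?_⟩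
    · monicity!
    · rw [Polynomial.eval₂_add, Polynomial.eval₂_add, Polynomial.eval₂_mul, Polynomial.eval₂_pow,
        Polynomial.eval₂_X, Polynomial.eval₂_C, Polynomial.eval₂_C]
      simpa using h
  obtain ⟨r, hr⟩ : ∃ r : 𝓞 K, (r : K) = x := ⟨⟨x, hint⟩, rfl⟩
  rw [← hr]
  exact v.valuation_le_one r

/-- **A uniform bound for the rank.** -/
theorem rank_le (K : Type) [Field K] [NumberField K] : ∃ A : ℕ, ∀ (a b : ℤ), 4 * a ^ 3 + 27 * b ^ 2 ≠ 0 →
    (∃ x y z : K, x + y + z = 0 ∧ x * y + x * z + y * z = a ∧ x * y * z = -(b : K)) →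
    Module.finrank ℤ (WeierstrassCurve.Affine.Point (WeierstrassCurve.toAffine (ECc a b))) ≤
      A + 2 * (Module.finrank ℚ K * (4 * a ^ 3 + 27 * b ^ 2).natAbs.primeFactors.card) := by
  classical
  obtain ⟨A, hA⟩ := descent_set' K
  refine ⟨A ^ 2 + 4, ?_⟩
  rintro a b hab ⟨x, y, z, hs1, hs2, hs3⟩
  have hz : z = -(x + y) := by linear_combination hs1
  have hdisc : ((x - y) * (x - z) * (y - z)) ^ 2 = -((4 * a ^ 3 + 27 * b ^ 2 : ℤ) : K) := by
    push_cast
    have hb : (b : K) = -(x * y * z) := by rw [hs3, neg_neg]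
    rw [← hs2, hb, hz]
    ring
  have hDK : ((4 * a ^ 3 + 27 * b ^ 2 : ℤ) : K) ≠ 0 := by exact_mod_cast hab
  have hprod : (x - y) * (x - z) * (y - z) ≠ 0 := by
    intro h0
    rw [h0] at hdisc
    apply hDK
    linear_combination hdisc
  have hxy : x ≠ y := fun h => hprod (by rw [h]; ring)
  have hxz : x ≠ z := fun h => hprod (by rw [h]; ring)
  have hyz : y ≠ z := fun h => hprod (by rw [h]; ring)
  have q12 : -x ≠ -y := fun h => hxy (neg_injective h)
  have q13 : -x ≠ -z := fun h => hxz (neg_injective h)
  have q23 : -y ≠ -z := fun h => hyz (neg_injective h)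
  have rx : x ^ 3 + a * x + b = 0 := by
    have hb : (b : K) = -(x * y * z) := by rw [hs3, neg_neg]
    rw [← hs2, hb, hz]
    ring
  have ry : y ^ 3 + a * y + b = 0 := by
    have hb : (b : K) = -(x * y * z) := by rw [hs3, neg_neg]
    rw [← hs2, hb, hz]
    ring
  have rz : z ^ 3 + a * z + b = 0 := by
    have hb : (b : K) = -(x * y * z) := by rw [hs3, neg_neg]
    rw [← hs2, hb, hz]
    ring
  have hfg := pt_fg q12 q13 q23
  obtain ⟨U, hUc, hU⟩ := hA _ _ _ q12 q13 q23
  have h1 := two_pow_finrank_le _ hfg U hU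
  -- the bad primes
  have hbad : (badS (-x) (-y) (-z)).ncard ≤
      Module.finrank ℚ K * (4 * a ^ 3 + 27 * b ^ 2).natAbs.primeFactors.card := by
    have hsub : badS (-x) (-y) (-z) ⊆
        {v | v.valuation K ((4 * a ^ 3 + 27 * b ^ 2 : ℤ) : K) ≠ 1} := by
      intro v hv
      rw [Set.mem_ofPred_eq]
      intro hv1
      have e1 : v.valuation K (((x - y) * (x - z) * (y - z)) ^ 2) = 1 := by
        rw [hdisc, Valuation.map_neg, hv1]
      have hvx := val_le_one rx v
      have hvy := val_le_one ry v
      have hvz := val_le_one rz v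
      have l1 : v.valuation K (x - y) ≤ 1 := (Valuation.map_sub _ _ _).trans (max_le hvx hvy)
      have l2 : v.valuation K (x - z) ≤ 1 := (Valuation.map_sub _ _ _).trans (max_le hvx hvz)
      have l3 : v.valuation K (y - z) ≤ 1 := (Valuation.map_sub _ _ _).trans (max_le hvy hvz)
      rw [map_pow, map_mul, map_mul] at e1
      have e2 : v.valuation K (x - y) * v.valuation K (x - z) * v.valuation K (y - z) = 1 := by
        have h3 : v.valuation K (x - y) * v.valuation K (x - z) * v.valuation K (y - z) ≤ 1 :=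
          mul_le_one' (mul_le_one' l1 l2) l3
        by_contra hne
        have h4 := lt_of_le_of_ne h3 hne
        have h5 : (v.valuation K (x - y) * v.valuation K (x - z) * v.valuation K (y - z)) ^ 2 < 1 :=
          pow_lt_one₀ zero_le h4 two_ne_zero
        exact h5.ne e1
      have m3 : v.valuation K (y - z) = 1 := by
        refine le_antisymm l3 ?_
        calc (1 : _) = v.valuation K (x - y) * v.valuation K (x - z) * v.valuation K (y - z) := e2.symm
          _ ≤ 1 * v.valuation K (y - z) := mul_le_mul_left (mul_le_one' l1 l2) _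
          _ = _ := one_mul _
      have m2 : v.valuation K (x - z) = 1 := by
        rw [m3, mul_one] at e2
        refine le_antisymm l2 ?_
        calc (1 : _) = v.valuation K (x - y) * v.valuation K (x - z) := e2.symm
          _ ≤ 1 * v.valuation K (x - z) := mul_le_mul_left l1 _
          _ = _ := one_mul _
      have m1 : v.valuation K (x - y) = 1 := by
        rw [m3, m2, mul_one, mul_one] at e2
        exact e2
      have n1 : v.valuation K (-x - -y) = 1 := by
        rw [← m1, ← Valuation.map_neg _ (x - y)]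
        congr 1
        ring
      have n2 : v.valuation K (-x - -z) = 1 := by
        rw [← m2, ← Valuation.map_neg _ (x - z)]
        congr 1
        ring
      have n3 : v.valuation K (-y - -z) = 1 := by
        rw [← m3, ← Valuation.map_neg _ (y - z)]
        congr 1
        ring
      simp only [badS, Set.mem_union, Set.mem_ofPred_eq] at hv
      rcases hv with (hv | hv) | hv
      · exact hv n1
      · exact hv n2
      · exact hv n3
    exact (Set.ncard_le_ncard hsub (finite_val_ne_one _ hDK)).trans (ncard_val_ne_one_le K _ hab)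
  obtain ⟨m, hm⟩ : ∃ m : ℕ, m = (badS (-x) (-y) (-z)).ncard := ⟨_, rfl⟩
  rw [← hm] at hUc hbad
  have h2 : 2 ^ Module.finrank ℤ (Pt (-x) (-y) (-z)) ≤
      2 ^ (A ^ 2 + 4 + 2 * (Module.finrank ℚ K * (4 * a ^ 3 + 27 * b ^ 2).natAbs.primeFactors.card)) := by
    calc _ ≤ U.card := h1
      _ ≤ (A * 2 ^ m) ^ 2 + 4 := hUc
      _ ≤ (A ^ 2 + 4) * 2 ^ (2 * m) := by
          have : 1 ≤ 2 ^ (2 * m) := Nat.one_le_two_pow
          have e : (A * 2 ^ m) ^ 2 = A ^ 2 * 2 ^ (2 * m) := by
            rw [mul_pow, ← pow_mul, mul_comm m 2]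
          rw [e, add_mul]
          omega
      _ ≤ 2 ^ (A ^ 2 + 4) * 2 ^ (2 * (Module.finrank ℚ K * (4 * a ^ 3 + 27 * b ^ 2).natAbs.primeFactors.card)) := by
          apply Nat.mul_le_mul
          · exact Nat.lt_two_pow_self.le
          · exact Nat.pow_le_pow_right (by norm_num) (Nat.mul_le_mul_left _ hbad)
      _ = _ := by rw [← pow_add]
  have h3' := (Nat.pow_le_pow_iff_right (by norm_num)).mp h2
  refine le_trans ?_ h3'
  have heq : (crv (-x) (-y) (-z)).toAffine = ((ECc a b).baseChange K) := by
    apply WeierstrassCurve.ext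
    · change (0 : K) = algebraMap ℚ K 0
      rw [map_zero]
    · change (-x) + (-y) + (-z) = algebraMap ℚ K 0
      rw [map_zero]
      linear_combination -hs1
    · change (0 : K) = algebraMap ℚ K 0
      rw [map_zero]
    · change (-x) * (-y) + (-x) * (-z) + (-y) * (-z) = algebraMap ℚ K (a : ℚ)
      rw [map_intCast (algebraMap ℚ K) a]
      linear_combination hs2
    · change (-x) * (-y) * (-z) = algebraMap ℚ K (b : ℚ)
      rw [map_intCast (algebraMap ℚ K) b]
      linear_combination -hs3
  have hinj := WeierstrassCurve.Affine.Point.map_injective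
    (W' := ECc a b) (Algebra.ofId ℚ K)
  have hle := finrank_le_of_inj' _ hinj (fg_of_eq' heq hfg)
  refine le_trans ?_ (hle.trans (finrank_of_eq' heq).ge)
  exact le_rfl

end Pool.Agent.H572.OB
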