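import Mathlib

/-!
# The lemma of Schwarz in a vertical strip

If `Λ` is holomorphic and bounded in the strip `|Re z| ≤ a`, at most `M` on the two boundary lines, and vanishes
to order `m` at the origin, then `|Λ(x)| ≤ M tan(π x / 4a)^m`.
-/

set_option autoImplicit false

open Filter Topology Set Complex Asymptotics

namespace Pool.Agent.H572.OB

/-- `sin (c z) / z` -/
noncomputable def sq (c : ℝ) (z : ℂ) : ℂ := dslope (fun w : ℂ => Complex.sin (c * w)) 0 z

lemma sq_diff (c : ℝ) : Differentiable ℂ (sq c) := by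
  have h : DifferentiableOn ℂ (dslope (fun w : ℂ => Complex.sin (c * w)) 0) univ := by
    rw [Complex.differentiableOn_dslope univ_mem]
    exact (by fun_prop : Differentiable ℂ fun w : ℂ => Complex.sin (c * w)).differentiableOn
  exact differentiableOn_univ.1 h

lemma sq_mul (c : ℝ) (z : ℂ) : z * sq c z = Complex.sin (c * z) := by
  have h := sub_smul_dslope (fun w : ℂ => Complex.sin (c * w)) 0 z
  simpa [sq] using h

lemma sq_zero (c : ℝ) : sq c 0 = c := by
  have h : HasDerivAt (fun w : ℂ => Complex.sin (c * w)) (Complex.cos (c * 0) * (c * 1)) 0 :=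
    (Complex.hasDerivAt_sin _).comp (0 : ℂ) ((hasDerivAt_id (0 : ℂ)).const_mul (c : ℂ))
  unfold sq
  rw [dslope_same, h.deriv]
  simp

lemma sq_ne {a : ℝ} (ha : 0 < a) {z : ℂ} (hz : |z.re| ≤ a) : sq (Real.pi / (4 * a)) z ≠ 0 := by
  have hc : 0 < Real.pi / (4 * a) := by positivity
  intro h
  rcases eq_or_ne z 0 with h0 | h0
  · rw [h0, sq_zero] at h
    have : Real.pi / (4 * a) = 0 := by exact_mod_cast h
    exact hc.ne' this
  · have h1 := sq_mul (Real.pi / (4 * a)) z
    rw [h, mul_zero] at h1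
    obtain ⟨k, hk⟩ := Complex.sin_eq_zero_iff.1 h1.symm
    have hre := congrArg Complex.re hk
    have him := congrArg Complex.im hk
    simp only [Complex.mul_re, Complex.mul_im, Complex.ofReal_re, Complex.ofReal_im, Complex.intCast_re,
      Complex.intCast_im, zero_mul, sub_zero, mul_zero, add_zero] at hre him
    have hk0 : k = 0 := by
      by_contra hk0
      have h2 : (1 : ℝ) ≤ |(k : ℝ)| := by
        rw [← Int.cast_abs]
        exact_mod_cast Int.one_le_abs hk0
      have h3 : |Real.pi / (4 * a) * z.re| = |(k : ℝ)| * Real.pi := by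
        rw [hre, abs_mul, abs_of_pos Real.pi_pos]
      rw [abs_mul, abs_of_pos hc] at h3
      have h4 : Real.pi / (4 * a) * |z.re| ≤ Real.pi / (4 * a) * a := by gcongr
      have h5 : Real.pi / (4 * a) * a = Real.pi / 4 := by field_simp
      nlinarith [Real.pi_pos]
    rw [hk0] at hre
    simp only [Int.cast_zero, zero_mul, mul_eq_zero] at hre
    have hz1 : z.re = 0 := by
      rcases hre with h | h
      · exact absurd h hc.ne'
      · exact h
    have hz2 : z.im = 0 := by
      rcases mul_eq_zero.1 him with h | h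
      · exact absurd h hc.ne'
      · exact h
    exact h0 (Complex.ext hz1 hz2)

/-- on the lines `Re w = ± π/4` the sine and the cosine have the same absolute value -/
lemma norm_cos_eq {w : ℂ} (hw : |w.re| = Real.pi / 4) : ‖Complex.cos w‖ = ‖Complex.sin w‖ := by
  rcases abs_choice w.re with h | h
  · rw [h] at hw
    have h1 : (starRingEnd ℂ) w = Real.pi / 2 - w := by
      apply Complex.ext
      · simp [hw]; ring
      · simp
    rw [← Complex.norm_conj (Complex.sin w), ← Complex.sin_conj, h1, Complex.sin_pi_div_two_sub]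
  · rw [h] at hw
    have h1 : -(starRingEnd ℂ) w = w + Real.pi / 2 := by
      apply Complex.ext
      · simp; linarith
      · simp
    rw [← Complex.norm_conj (Complex.sin w), ← Complex.sin_conj,
      ← norm_neg (Complex.sin ((starRingEnd ℂ) w)), ← Complex.sin_neg, h1, Complex.sin_add_pi_div_two]

lemma norm_cos_le (w : ℂ) : ‖Complex.cos w‖ ≤ Real.exp |w.im| := by
  rw [Complex.cos, norm_div, Complex.norm_ofNat]
  have h1 : ‖Complex.exp (w * Complex.I) + Complex.exp (-w * Complex.I)‖ ≤
      Real.exp |w.im| + Real.exp |w.im| := by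
    refine (norm_add_le _ _).trans ?_
    rw [Complex.norm_exp, Complex.norm_exp]
    apply add_le_add
    · apply Real.exp_le_exp.2
      have : (w * Complex.I).re = -w.im := by simp
      rw [this]; exact neg_le_abs _
    · apply Real.exp_le_exp.2
      have : (-w * Complex.I).re = w.im := by simp
      rw [this]; exact le_abs_self _
  linarith

lemma norm_sin_ge (w : ℂ) : (Real.exp |w.im| - Real.exp (-|w.im|)) / 2 ≤ ‖Complex.sin w‖ := by
  rw [Complex.sin, norm_div, norm_mul, Complex.norm_I, mul_one, Complex.norm_ofNat]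
  have e1 : ‖Complex.exp (-w * Complex.I)‖ = Real.exp w.im := by
    rw [Complex.norm_exp]
    simp
  have e2 : ‖Complex.exp (w * Complex.I)‖ = Real.exp (-w.im) := by
    rw [Complex.norm_exp]
    simp
  have h1 := abs_norm_sub_norm_le (Complex.exp (-w * Complex.I)) (Complex.exp (w * Complex.I))
  rw [e1, e2] at h1
  have h2 : Real.exp |w.im| - Real.exp (-|w.im|) ≤ |Real.exp w.im - Real.exp (-w.im)| := by
    rcases abs_choice w.im with h | h
    · rw [h]; exact le_abs_self _
    · rw [h, neg_neg, abs_sub_comm]; exact le_abs_self _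
  linarith

/-- **The lemma of Schwarz in a strip.** -/
theorem schwarz_strip {Λ h : ℂ → ℂ} {m : ℕ} (hh : Differentiable ℂ h) (hΛ : ∀ z, Λ z = z ^ m * h z)
    {a M : ℝ} (ha : 0 < a) (hbd : ∃ M' : ℝ, ∀ z : ℂ, |z.re| ≤ a → ‖Λ z‖ ≤ M')
    (hM : ∀ z : ℂ, |z.re| = a → ‖Λ z‖ ≤ M) {x : ℝ} (hx0 : 0 < x) (hxa : x < a) :
    ‖Λ x‖ ≤ M * Real.tan (Real.pi * x / (4 * a)) ^ m := by
  obtain ⟨c, hc⟩ : ∃ c : ℝ, c = Real.pi / (4 * a) := ⟨_, rfl⟩
  have hc0 : 0 < c := by rw [hc]; positivity
  obtain ⟨M', hM'⟩ := hbd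
  have hM'0 : 0 ≤ M' := (norm_nonneg _).trans (hM' 0 (by simpa using ha.le))
  obtain ⟨G, hG⟩ : ∃ G : ℂ → ℂ, G = fun z => h z * (Complex.cos (c * z) / sq c z) ^ m := ⟨_, rfl⟩
  have hsne : ∀ z : ℂ, |z.re| ≤ a → sq c z ≠ 0 := fun z hz => by rw [hc]; exact sq_ne ha hz
  have hGne : ∀ z : ℂ, z ≠ 0 → G z = Λ z * (Complex.cos (c * z) / Complex.sin (c * z)) ^ m := by
    intro z hz
    rw [hG]
    simp only
    rw [hΛ, ← sq_mul, ← div_div, div_eq_mul_inv (Complex.cos (c * z) / z), div_eq_mul_inv (Complex.cos (c * z)) z,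
      mul_pow, mul_pow, inv_pow, div_eq_mul_inv, mul_pow]
    field_simp
  have hGd : ∀ z : ℂ, |z.re| ≤ a → DifferentiableAt ℂ G z := by
    intro z hz
    rw [hG]
    refine (hh z).mul (DifferentiableAt.pow ?_ m)
    refine DifferentiableAt.div ?_ (sq_diff c z) (hsne z hz)
    fun_prop
  have hn : ∀ z : ℂ, z ≠ 0 → |z.re| ≤ a →
      ‖G z‖ = ‖Λ z‖ * (‖Complex.cos (c * z)‖ / ‖Complex.sin (c * z)‖) ^ m := by
    intro z hz _
    rw [hGne z hz, norm_mul, norm_pow, norm_div]
  have hbdry : ∀ z : ℂ, |z.re| = a → ‖G z‖ ≤ M := by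
    intro z hz
    have hz0 : z ≠ 0 := by
      intro h0
      rw [h0] at hz
      simp at hz
      exact ha.ne hz
    have hw : |((c : ℂ) * z).re| = Real.pi / 4 := by
      simp only [Complex.mul_re, Complex.ofReal_re, Complex.ofReal_im, zero_mul, sub_zero]
      rw [abs_mul, abs_of_pos hc0, hz, hc]
      field_simp
    have hs : Complex.sin (c * z) ≠ 0 := by
      rw [← sq_mul]
      exact mul_ne_zero hz0 (hsne z hz.le)
    rw [hn z hz0 hz.le, norm_cos_eq hw, div_self (norm_ne_zero_iff.2 hs), one_pow, mul_one]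
    exact hM z hz
  have hkey : ‖G x‖ ≤ M := by
    refine PhragmenLindelof.vertical_strip (a := -a) (b := a) (f := G) (C := M) ?_ ?_ ?_ ?_ ?_ ?_
    · refine DifferentiableOn.diffContOnCl fun w hw => ?_
      have hw' : w ∈ Complex.re ⁻¹' (Icc (-a) a) := by
        have : closure (Complex.re ⁻¹' (Ioo (-a) a)) ⊆ Complex.re ⁻¹' (Icc (-a) a) :=
          closure_minimal (preimage_mono Ioo_subset_Icc_self) (isClosed_Icc.preimage Complex.continuous_re)
        exact this hw
      exact (hGd w (abs_le.2 hw')).differentiableWithinAt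
    · refine ⟨0, div_pos Real.pi_pos (by linarith), 0, ?_⟩
      have hbig : ∀ z : ℂ, |z.re| ≤ a → 1 ≤ |z.im| → ‖G z‖ ≤ M' * (2 / (1 - Real.exp (-(2 * c)))) ^ m := by
        intro z hz h1
        have hz0 : z ≠ 0 := by
          intro h0
          rw [h0] at h1
          norm_num at h1
        rw [hn z hz0 hz]
        have e : |((c : ℂ) * z).im| = c * |z.im| := by
          simp only [Complex.mul_im, Complex.ofReal_re, Complex.ofReal_im, zero_mul, add_zero]
          rw [abs_mul, abs_of_pos hc0]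
        have h2 := norm_cos_le (c * z)
        have h3 := norm_sin_ge (c * z)
        rw [e] at h2 h3
        have hcy : c ≤ c * |z.im| := by nlinarith
        have h4 : Real.exp (-(2 * c)) < 1 := by
          rw [Real.exp_lt_one_iff]
          linarith
        have h5 : Real.exp (-(c * |z.im|)) ≤ Real.exp (c * |z.im|) * Real.exp (-(2 * c)) := by
          rw [← Real.exp_add]
          apply Real.exp_le_exp.2
          linarith
        have h6 : Real.exp (c * |z.im|) * (1 - Real.exp (-(2 * c))) / 2 ≤ ‖Complex.sin (c * z)‖ := by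
          linarith
        have hpos := Real.exp_pos (c * |z.im|)
        have h7 : 0 < ‖Complex.sin (c * z)‖ := lt_of_lt_of_le (by
          have : 0 < 1 - Real.exp (-(2 * c)) := by linarith
          positivity) h6
        have h8 : ‖Complex.cos (c * z)‖ / ‖Complex.sin (c * z)‖ ≤ 2 / (1 - Real.exp (-(2 * c))) := by
          rw [div_le_div_iff₀ h7 (by linarith)]
          calc ‖Complex.cos (c * z)‖ * (1 - Real.exp (-(2 * c)))
              ≤ Real.exp (c * |z.im|) * (1 - Real.exp (-(2 * c))) :=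
                mul_le_mul_of_nonneg_right h2 (by linarith)
            _ ≤ 2 * ‖Complex.sin (c * z)‖ := by linarith
        exact mul_le_mul (hM' z hz) (pow_le_pow_left₀ (by positivity) h8 m) (by positivity) hM'0
      apply Asymptotics.IsBigO.of_bound (M' * (2 / (1 - Real.exp (-(2 * c)))) ^ m)
      rw [Filter.eventually_inf_principal]
      have hev : ∀ᶠ z : ℂ in comap (_root_.abs ∘ Complex.im) atTop, 1 ≤ (_root_.abs ∘ Complex.im) z :=
        tendsto_comap.eventually (eventually_ge_atTop 1)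
      filter_upwards [hev] with z hz1 hz
      have hz' : |z.re| ≤ a := abs_le.2 ⟨(mem_preimage.1 hz).1.le, (mem_preimage.1 hz).2.le⟩
      have := hbig z hz' hz1
      simpa using this
    · intro z hz
      exact hbdry z (by rw [hz, abs_neg, abs_of_pos ha])
    · intro z hz
      exact hbdry z (by rw [hz, abs_of_pos ha])
    · simp; linarith
    · simp; linarith
  have hx0' : (x : ℂ) ≠ 0 := by exact_mod_cast hx0.ne'
  have hcx : Real.pi * x / (4 * a) = c * x := by rw [hc]; ring
  have hcx0 : 0 < c * x := by positivity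
  have hcx1 : c * x < Real.pi / 4 := by
    calc c * x < c * a := by gcongr
      _ = Real.pi / 4 := by rw [hc]; field_simp
  have hsin : 0 < Real.sin (c * x) := Real.sin_pos_of_pos_of_lt_pi hcx0 (by linarith [Real.pi_pos])
  have hcos : 0 < Real.cos (c * x) := Real.cos_pos_of_mem_Ioo ⟨by linarith [Real.pi_pos], by linarith [Real.pi_pos]⟩
  have e1 : ‖Complex.cos ((c : ℂ) * x)‖ = Real.cos (c * x) := by
    rw [← Complex.ofReal_mul, ← Complex.ofReal_cos, Complex.norm_real, Real.norm_of_nonneg hcos.le]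
  have e2 : ‖Complex.sin ((c : ℂ) * x)‖ = Real.sin (c * x) := by
    rw [← Complex.ofReal_mul, ← Complex.ofReal_sin, Complex.norm_real, Real.norm_of_nonneg hsin.le]
  rw [hn x hx0' (by rw [Complex.ofReal_re, abs_of_pos hx0]; exact hxa.le), e1, e2] at hkey
  rw [hcx, Real.tan_eq_sin_div_cos]
  have h9 : (Real.cos (c * x) / Real.sin (c * x)) ^ m * (Real.sin (c * x) / Real.cos (c * x)) ^ m = 1 := by
    rw [← mul_pow]
    have : Real.cos (c * x) / Real.sin (c * x) * (Real.sin (c * x) / Real.cos (c * x)) = 1 := by field_simp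
    rw [this, one_pow]
  calc ‖Λ x‖ = ‖Λ x‖ * (Real.cos (c * x) / Real.sin (c * x)) ^ m *
        (Real.sin (c * x) / Real.cos (c * x)) ^ m := by rw [mul_assoc, h9, mul_one]
    _ ≤ M * (Real.sin (c * x) / Real.cos (c * x)) ^ m := by gcongr

/-- `(1 - t)/(1 + t) ≤ e^{-2t}` -/
lemma frac_le_exp {t : ℝ} (h0 : 0 ≤ t) (h1 : t < 1) : (1 - t) / (1 + t) ≤ Real.exp (-(2 * t)) := by
  have hmono : MonotoneOn (fun t : ℝ => (1 + t) * Real.exp (-(2 * t)) - (1 - t)) (Icc 0 1) := by
    apply monotoneOn_of_deriv_nonneg (convex_Icc 0 1)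
    · fun_prop
    · fun_prop
    · intro x hx
      rw [interior_Icc] at hx
      have hd : HasDerivAt (fun t : ℝ => (1 + t) * Real.exp (-(2 * t)) - (1 - t))
          ((0 + 1) * Real.exp (-(2 * x)) + (1 + x) * (Real.exp (-(2 * x)) * (-(2 * 1))) - (0 - 1)) x := by
        refine HasDerivAt.sub (HasDerivAt.mul ?_ ?_) ?_
        · exact (hasDerivAt_const x (1 : ℝ)).add (hasDerivAt_id x)
        · exact ((hasDerivAt_id x).const_mul 2).neg.exp
        · exact (hasDerivAt_const x (1 : ℝ)).sub (hasDerivAt_id x)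
      rw [hd.deriv]
      have h2 : (1 + 2 * x) * Real.exp (-(2 * x)) ≤ 1 := by
        have h3 := Real.add_one_le_exp (2 * x)
        calc (1 + 2 * x) * Real.exp (-(2 * x)) ≤ Real.exp (2 * x) * Real.exp (-(2 * x)) := by
              gcongr
              linarith
          _ = 1 := by rw [← Real.exp_add]; simp
      nlinarith
  have h2 := hmono (⟨le_rfl, zero_le_one⟩ : (0 : ℝ) ∈ Icc (0 : ℝ) 1) ⟨h0, h1.le⟩ h0
  simp only [mul_zero, neg_zero, Real.exp_zero, add_zero, sub_zero, mul_one, sub_self] at h2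
  rw [div_le_iff₀ (by linarith)]
  linarith

/-- `tan(π x / 4a) ≤ exp(-π (a - x) / 2a)` -/
theorem tan_le {a x : ℝ} (hx0 : 0 < x) (hxa : x < a) :
    Real.tan (Real.pi * x / (4 * a)) ≤ Real.exp (-(Real.pi * (a - x) / (2 * a))) := by
  have ha : 0 < a := hx0.trans hxa
  obtain ⟨η, hη⟩ : ∃ η : ℝ, η = Real.pi * (a - x) / (4 * a) := ⟨_, rfl⟩
  have hη0 : 0 < η := by
    rw [hη]
    have : 0 < a - x := by linarith
    positivity
  have hη1 : η < Real.pi / 4 := by
    rw [hη, div_lt_div_iff₀ (by positivity) (by norm_num)]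
    nlinarith [Real.pi_pos, mul_pos Real.pi_pos hx0]
  have e1 : Real.pi * x / (4 * a) = Real.pi / 4 - η := by
    rw [hη]
    field_simp
    ring
  have e2 : Real.pi * (a - x) / (2 * a) = 2 * η := by
    rw [hη]
    field_simp
    ring
  have hsin : 0 < Real.sin η := Real.sin_pos_of_pos_of_lt_pi hη0 (by linarith [Real.pi_pos])
  have hcos : 0 < Real.cos η := Real.cos_pos_of_mem_Ioo ⟨by linarith [Real.pi_pos], by linarith [Real.pi_pos]⟩
  have ht0 : η ≤ Real.tan η := Real.le_tan hη0.le (by linarith [Real.pi_pos])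
  have ht1 : Real.tan η < 1 := by
    rw [← Real.tan_pi_div_four]
    exact Real.tan_lt_tan_of_lt_of_lt_pi_div_two (by linarith [Real.pi_pos]) (by linarith [Real.pi_pos]) hη1
  have e3 : Real.tan (Real.pi / 4 - η) = (1 - Real.tan η) / (1 + Real.tan η) := by
    rw [Real.tan_eq_sin_div_cos (Real.pi / 4 - η), Real.sin_sub, Real.cos_sub, Real.sin_pi_div_four,
      Real.cos_pi_div_four, Real.tan_eq_sin_div_cos]
    have h2 : (0 : ℝ) < √2 := by positivity
    have h3 : Real.cos η + Real.sin η ≠ 0 := by positivity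
    field_simp
  rw [e1, e2, e3]
  refine (frac_le_exp (hη0.le.trans ht0) ht1).trans ?_
  apply Real.exp_le_exp.2
  linarith

end Pool.Agent.H572.OB
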